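import Mathlib

open Finset
open scoped RealInnerProductSpace

namespace Pool.Agent.H763Z.LD

abbrev Eu (k : ℕ) := EuclideanSpace ℝ (Fin k)

/-- determinant of the matrix with columns `v j` -/
noncomputable def dt {k : ℕ} (v : Fin k → Eu k) : ℝ :=
  (Matrix.of fun i j => v j i).det

lemma dt_eq {k : ℕ} (v : Fin k → Eu k) :
    dt v = (EuclideanSpace.basisFun (Fin k) ℝ).toBasis.det v := by
  rw [Module.Basis.det_apply]
  unfold dt
  congr 1

lemma hadamard {k : ℕ} (v : Fin k → Eu k) : |dt v| ≤ ∏ j, ‖v j‖ := by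
  have : Fact (Module.finrank ℝ (Eu k) = k) := ⟨by simp⟩
  let o : Orientation ℝ (Eu k) (Fin k) := (EuclideanSpace.basisFun (Fin k) ℝ).toBasis.orientation
  rw [dt_eq, ← o.volumeForm_robust' (EuclideanSpace.basisFun (Fin k) ℝ) v]
  exact o.abs_volumeForm_apply_le v

lemma dt_perm {k : ℕ} (v : Fin k → Eu k) (σ : Equiv.Perm (Fin k)) :
    dt (fun j => v (σ j)) = ((Equiv.Perm.sign σ : ℤ) : ℝ) * dt v := by
  unfold dt
  have := Matrix.det_permute' σ (Matrix.of fun i j => v j i)
  rw [← this]
  congr 1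

lemma det_expand {k : ℕ} {S : Type*} [Fintype S] [DecidableEq S] (a β : S → Eu k) :
    (Matrix.of fun i j => ∑ s, β s j * a s i).det
      = ∑ f : Fin k → S, (∏ j, β (f j) j) * dt (fun j => a (f j)) := by
  rw [Matrix.det_apply']
  simp only [Matrix.of_apply, dt, Matrix.det_apply']
  simp only [Finset.mul_sum]
  rw [Finset.sum_comm]
  refine Finset.sum_congr rfl fun σ _ => ?_
  rw [Finset.prod_univ_sum, Fintype.piFinset_univ, Finset.mul_sum]
  refine Finset.sum_congr rfl fun f _ => ?_
  rw [Finset.prod_mul_distrib]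
  ring

lemma det_sym {k : ℕ} {S : Type*} [Fintype S] [DecidableEq S] (a β : S → Eu k) :
    (k.factorial : ℝ) * (Matrix.of fun i j => ∑ s, β s j * a s i).det
      = ∑ f : Fin k → S, dt (fun j => β (f j)) * dt (fun j => a (f j)) := by
  have h1 : ∀ τ : Equiv.Perm (Fin k), (Matrix.of fun i j => ∑ s, β s j * a s i).det
      = ∑ f : Fin k → S, (((Equiv.Perm.sign τ : ℤ) : ℝ) * ∏ j, β (f (τ j)) j)
          * dt (fun j => a (f j)) := by
    intro τ
    rw [det_expand]
    let e : (Fin k → S) ≃ (Fin k → S) := Equiv.arrowCongr τ.symm (Equiv.refl S)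
    rw [← e.sum_comp]
    refine Finset.sum_congr rfl fun f _ => ?_
    have he : ∀ j, e f j = f (τ j) := fun j => rfl
    simp only [he]
    rw [dt_perm (fun j => a (f j)) τ]
    ring
  have h2 : (k.factorial : ℝ) * (Matrix.of fun i j => ∑ s, β s j * a s i).det
      = ∑ τ : Equiv.Perm (Fin k), (Matrix.of fun i j => ∑ s, β s j * a s i).det := by
    simp [Fintype.card_perm]
  rw [h2, Finset.sum_congr rfl fun τ _ => h1 τ, Finset.sum_comm]
  refine Finset.sum_congr rfl fun f _ => ?_
  rw [← Finset.sum_mul]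
  congr 1
  unfold dt
  rw [← Matrix.det_transpose, Matrix.det_apply']
  rfl

/-- A symmetrised Cauchy-Binet bound. -/
lemma cb {k : ℕ} {S : Type*} [Fintype S] [DecidableEq S] (a : S → Eu k) (b : S → Eu k →L[ℝ] ℝ)
    (B : ℝ) (hB : ∀ f : Fin k → S, |dt (fun j => a (f j))| ≤ B)
    (L : Eu k →L[ℝ] Eu k) (hL : ∀ x, L x = ∑ s, b s x • a s) :
    (k.factorial : ℝ) * |L.det| ≤ B * (∑ s, ‖b s‖) ^ k := by
  let β : S → Eu k := fun s => (InnerProductSpace.toDual ℝ (Eu k)).symm (b s)
  have hβn : ∀ s, ‖β s‖ = ‖b s‖ := fun s => by simp [β]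
  have hβ : ∀ s j, β s j = b s (EuclideanSpace.single j 1) := by
    intro s j
    have := InnerProductSpace.toDual_symm_apply (𝕜 := ℝ) (y := b s)
      (x := EuclideanSpace.single j (1:ℝ))
    rw [← this, EuclideanSpace.inner_single_right]
    simp [β]
  have hdet : L.det = (Matrix.of fun i j => ∑ s, β s j * a s i).det := by
    rw [ContinuousLinearMap.det, ← LinearMap.det_toMatrix (EuclideanSpace.basisFun (Fin k) ℝ).toBasis]
    congr 1
    ext i j
    rw [LinearMap.toMatrix_apply]
    simp [hL, hβ]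
  have hk : (0:ℝ) ≤ k.factorial := by positivity
  rw [← abs_of_nonneg hk, ← abs_mul, hdet, det_sym]
  calc |∑ f : Fin k → S, dt (fun j => β (f j)) * dt (fun j => a (f j))|
      ≤ ∑ f : Fin k → S, |dt (fun j => β (f j)) * dt (fun j => a (f j))| :=
        Finset.abs_sum_le_sum_abs _ _
    _ ≤ ∑ f : Fin k → S, (∏ j, ‖b (f j)‖) * B := by
        refine Finset.sum_le_sum fun f _ => ?_
        rw [abs_mul]
        refine mul_le_mul ?_ (hB f) (abs_nonneg _) (by positivity)
        simpa [hβn] using hadamard (fun j => β (f j))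
    _ = B * (∑ s, ‖b s‖) ^ k := by
        rw [← Finset.sum_mul, mul_comm]
        congr 1
        have := Finset.prod_univ_sum (fun _ : Fin k => (Finset.univ : Finset S))
          (fun _ s => ‖b s‖)
        rw [Fintype.piFinset_univ] at this
        rw [← this]
        simp

end Pool.Agent.H763Z.LD
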