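import Mathlib
import Pool.Agent.H763Z.LD.Det

open Finset
open scoped RealInnerProductSpace

namespace Pool.Agent.H763Z.LD

/-- sign vector -/
noncomputable def sg {k : ℕ} (g : Fin k → Bool) : Eu k :=
  WithLp.toLp 2 fun i => if g i then (1:ℝ) else -1

/-- average over sign vectors -/
noncomputable def av {k : ℕ} (f : (Fin k → Bool) → ℝ) : ℝ := ((2:ℝ) ^ k)⁻¹ * ∑ g, f g

/-- vector moment -/
noncomputable def mm {k : ℕ} (f : (Fin k → Bool) → ℝ) : Eu k :=
  ((2:ℝ) ^ k)⁻¹ • ∑ g, f g • sg g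

lemma sg_apply {k : ℕ} (g : Fin k → Bool) (i : Fin k) :
    sg g i = if g i then (1:ℝ) else -1 := rfl

lemma sg_sq {k : ℕ} (g : Fin k → Bool) (i : Fin k) : sg g i * sg g i = 1 := by
  rw [sg_apply]; split_ifs <;> norm_num

lemma norm_sg {k : ℕ} (g : Fin k → Bool) : ‖sg g‖ = √(k:ℝ) := by
  rw [EuclideanSpace.norm_eq]
  congr 1
  have : ∀ i, ‖sg g i‖ ^ 2 = 1 := fun i => by
    rw [Real.norm_eq_abs, sq_abs, sq, sg_sq]
  simp only [this]
  simp

lemma inner_eq {k : ℕ} (x y : Eu k) : ⟪x, y⟫ = ∑ i, x i * y i := by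
  simp [PiLp.inner_apply, mul_comm]

def flp {k : ℕ} (i : Fin k) : Equiv.Perm (Fin k → Bool) :=
  Function.Involutive.toPerm (fun g => Function.update g i (!g i)) (by
    intro g; ext j
    by_cases h : j = i
    · subst h; simp
    · simp [Function.update_of_ne h])

lemma flp_same {k : ℕ} (i : Fin k) (g : Fin k → Bool) : sg (flp i g) i = - sg g i := by
  simp only [sg_apply, flp, Function.Involutive.coe_toPerm, Function.update_self]
  cases g i <;> simp

lemma flp_ne {k : ℕ} {i j : Fin k} (h : j ≠ i) (g : Fin k → Bool) :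
    sg (flp i g) j = sg g j := by
  simp only [sg_apply, flp, Function.Involutive.coe_toPerm, Function.update_of_ne h]

lemma sum_sg {k : ℕ} (i : Fin k) : ∑ g : Fin k → Bool, sg g i = 0 := by
  have h := Equiv.sum_comp (flp i) (fun g => (sg g i : ℝ))
  simp only [flp_same, Finset.sum_neg_distrib] at h
  linarith

lemma sum_sg_sg {k : ℕ} (i j : Fin k) :
    ∑ g : Fin k → Bool, sg g j * sg g i = if j = i then (2:ℝ) ^ k else 0 := by
  split_ifs with h
  · subst h; simp [sg_sq]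
  · have h1 := Equiv.sum_comp (flp i) (fun g => (sg g j * sg g i : ℝ))
    simp only [flp_same, flp_ne h, mul_neg, Finset.sum_neg_distrib] at h1
    linarith

lemma mm_apply {k : ℕ} (f : (Fin k → Bool) → ℝ) (i : Fin k) :
    mm f i = ((2:ℝ) ^ k)⁻¹ * ∑ g, f g * sg g i := by
  simp [mm]

lemma mm_sub {k : ℕ} (f f' : (Fin k → Bool) → ℝ) :
    mm (fun g => f g - f' g) = mm f - mm f' := by
  simp only [mm, sub_smul, Finset.sum_sub_distrib, smul_sub]

lemma mm_add {k : ℕ} (f f' : (Fin k → Bool) → ℝ) :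
    mm (fun g => f g + f' g) = mm f + mm f' := by
  simp only [mm, add_smul, Finset.sum_add_distrib, smul_add]

lemma mm_const {k : ℕ} (c : ℝ) : mm (fun _ : Fin k → Bool => c) = 0 := by
  ext i
  rw [mm_apply, ← Finset.mul_sum, sum_sg]
  simp

lemma mm_inner {k : ℕ} (x : Eu k) : mm (fun g => ⟪sg g, x⟫) = x := by
  ext i
  rw [mm_apply]
  simp only [inner_eq, Finset.sum_mul]
  rw [Finset.sum_comm]
  have : ∀ j, ∑ g : Fin k → Bool, sg g j * x j * sg g i
      = x j * if j = i then (2:ℝ) ^ k else 0 := by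
    intro j
    rw [← sum_sg_sg, Finset.mul_sum]
    refine Finset.sum_congr rfl fun g _ => by ring
  simp only [this]
  simp
  field_simp

lemma av_mono {k : ℕ} {f f' : (Fin k → Bool) → ℝ} (h : ∀ g, f g ≤ f' g) : av f ≤ av f' := by
  unfold av
  exact mul_le_mul_of_nonneg_left (Finset.sum_le_sum fun g _ => h g) (by positivity)

lemma av_const {k : ℕ} (c : ℝ) : av (fun _ : Fin k → Bool => c) = c := by
  unfold av
  simp

lemma av_sub {k : ℕ} (f f' : (Fin k → Bool) → ℝ) :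
    av (fun g => f g - f' g) = av f - av f' := by
  simp only [av, Finset.sum_sub_distrib, mul_sub]

lemma av_inner {k : ℕ} (x : Eu k) : av (fun g => ⟪sg g, x⟫) = 0 := by
  unfold av
  simp only [inner_eq]
  rw [Finset.sum_comm]
  have : ∀ j, ∑ g : Fin k → Bool, sg g j * x j = 0 := by
    intro j
    rw [← Finset.sum_mul, sum_sg, zero_mul]
  simp [this]

lemma norm_mm_le {k : ℕ} (f : (Fin k → Bool) → ℝ) (hf : ∀ g, 0 ≤ f g) :
    ‖mm f‖ ≤ √(k:ℝ) * av f := by
  unfold mm av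
  rw [norm_smul, Real.norm_eq_abs, abs_of_nonneg (by positivity), mul_left_comm]
  refine mul_le_mul_of_nonneg_left ?_ (by positivity)
  refine (norm_sum_le _ _).trans ?_
  rw [Finset.mul_sum]
  refine Finset.sum_le_sum fun g _ => ?_
  rw [norm_smul, norm_sg, Real.norm_eq_abs, abs_of_nonneg (hf g), mul_comm]

lemma inner_mm {k : ℕ} (f : (Fin k → Bool) → ℝ) (e : Eu k) :
    ⟪mm f, e⟫ = av (fun g => f g * ⟪sg g, e⟫) := by
  unfold mm av
  rw [real_inner_smul_left, sum_inner]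
  simp only [real_inner_smul_left]

lemma av_exp {k : ℕ} (u : Eu k) (hu : ‖u‖ ≤ 1) : av (fun g => Real.exp ⟪sg g, u⟫) ≤ 2 := by
  have h1 : ∑ g : Fin k → Bool, Real.exp ⟪sg g, u⟫
      = ∏ i, (2 * Real.cosh (u i)) := by
    have := Finset.prod_univ_sum (fun _ : Fin k => (Finset.univ : Finset Bool))
      (fun i b => Real.exp ((if b then (1:ℝ) else -1) * u i))
    rw [Fintype.piFinset_univ] at this
    simp only [inner_eq, Real.exp_sum, sg_apply]
    rw [← this]
    refine Finset.prod_congr rfl fun i _ => ?_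
    simp [Real.cosh_eq]
    ring
  have h2 : ∏ i, Real.cosh (u i) ≤ ∏ i, Real.exp (u i ^ 2 / 2) :=
    Finset.prod_le_prod (fun i _ => (Real.cosh_pos _).le) fun i _ => Real.cosh_le_exp_half_sq _
  have h3 : ∑ i, u i ^ 2 / 2 ≤ 1 / 2 := by
    have : ‖u‖ ^ 2 = ∑ i, u i ^ 2 := by
      rw [EuclideanSpace.norm_sq_eq]; simp
    rw [← Finset.sum_div, ← this]
    have : ‖u‖ ^ 2 ≤ 1 := by nlinarith [norm_nonneg u]
    linarith
  rw [← Real.exp_sum] at h2
  have h4 : Real.exp (1 / 2) ≤ 2 := by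
    have : Real.exp (1 / 2) ^ 2 = Real.exp 1 := by rw [← Real.exp_nat_mul]; norm_num
    have h := Real.exp_one_lt_d9
    nlinarith [Real.exp_pos (1 / 2 : ℝ)]
  unfold av
  rw [h1, Finset.prod_mul_distrib]
  simp only [Finset.prod_const, Finset.card_univ, Fintype.card_fin]
  rw [← mul_assoc, inv_mul_cancel₀ (by positivity), one_mul]
  exact h2.trans ((Real.exp_le_exp.2 h3).trans h4)

lemma sum_norm_mm {k : ℕ} (hk : 1 ≤ k) (δ : Fin k → (Fin k → Bool) → ℝ) (H : ℝ)
    (h0 : ∀ j g, 0 ≤ δ j g) (hH : ∀ g, ∑ j, δ j g ≤ H) :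
    ∑ j, ‖mm (δ j)‖ ≤ (Real.log k + 2) * H := by
  have hkpos : (0:ℝ) < k := by exact_mod_cast hk
  have hH0 : 0 ≤ H := (Finset.sum_nonneg fun j _ => h0 j (fun _ => true)).trans (hH _)
  set t := Real.log k with ht
  have ht0 : 0 ≤ t := Real.log_nonneg (by exact_mod_cast hk)
  let e : Fin k → Eu k := fun j => ‖mm (δ j)‖⁻¹ • mm (δ j)
  have he : ∀ j, ‖e j‖ ≤ 1 := fun j => by
    simp only [e, norm_smul, norm_inv, norm_norm]
    exact inv_mul_le_one_of_le₀ le_rfl (norm_nonneg _)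
  have hn : ∀ j, ‖mm (δ j)‖ = ⟪mm (δ j), e j⟫ := fun j => by
    simp only [e]
    rw [real_inner_smul_right, real_inner_self_eq_norm_sq]
    generalize ‖mm (δ j)‖ = r
    by_cases h : r = 0
    · simp [h]
    · field_simp
  let Mx : (Fin k → Bool) → ℝ := fun g => t + (k:ℝ)⁻¹ * ∑ j, Real.exp ⟪sg g, e j⟫
  have hMx0 : ∀ g, 0 ≤ Mx g := fun g =>
    add_nonneg ht0 (mul_nonneg (inv_nonneg.2 hkpos.le)
      (Finset.sum_nonneg fun j _ => (Real.exp_pos _).le))
  have hMx : ∀ g j, ⟪sg g, e j⟫ ≤ Mx g := fun g j => by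
    have h1 : Real.exp ⟪sg g, e j⟫ ≤ ∑ j, Real.exp ⟪sg g, e j⟫ :=
      Finset.single_le_sum (f := fun j => Real.exp ⟪sg g, e j⟫)
        (fun i _ => (Real.exp_pos _).le) (Finset.mem_univ j)
    have h2 := Real.add_one_le_exp (⟪sg g, e j⟫ - t)
    rw [Real.exp_sub, ht, Real.exp_log hkpos, div_eq_inv_mul] at h2
    have h3 := mul_le_mul_of_nonneg_left h1 (inv_nonneg.2 hkpos.le)
    simp only [Mx]
    linarith
  have h1 : ∑ j, ‖mm (δ j)‖ = av (fun g => ∑ j, δ j g * ⟪sg g, e j⟫) := by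
    simp only [hn, inner_mm]
    unfold av
    rw [← Finset.mul_sum, Finset.sum_comm]
  have h2 : av (fun g => ∑ j, δ j g * ⟪sg g, e j⟫) ≤ av (fun g => H * Mx g) := by
    refine av_mono fun g => ?_
    calc ∑ j, δ j g * ⟪sg g, e j⟫ ≤ ∑ j, δ j g * Mx g :=
          Finset.sum_le_sum fun j _ => mul_le_mul_of_nonneg_left (hMx g j) (h0 j g)
      _ = (∑ j, δ j g) * Mx g := by rw [Finset.sum_mul]
      _ ≤ H * Mx g := mul_le_mul_of_nonneg_right (hH g) (hMx0 g)
  have h3 : av (fun g => H * Mx g)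
      = H * (t + (k:ℝ)⁻¹ * ∑ j, av (fun g => Real.exp ⟪sg g, e j⟫)) := by
    simp only [av, Mx]
    rw [← Finset.mul_sum, Finset.sum_add_distrib, ← Finset.mul_sum, ← Finset.mul_sum,
      Finset.sum_comm]
    generalize (∑ j : Fin k, ∑ g : Fin k → Bool, Real.exp ⟪sg g, e j⟫) = r
    rw [Finset.sum_const, Finset.card_univ, Fintype.card_fun, Fintype.card_bool, Fintype.card_fin,
      nsmul_eq_mul]
    push_cast
    field_simp
  have h4 : ∑ j, av (fun g => Real.exp ⟪sg g, e j⟫) ≤ k * 2 := by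
    calc ∑ j, av (fun g => Real.exp ⟪sg g, e j⟫) ≤ ∑ _j : Fin k, (2:ℝ) :=
          Finset.sum_le_sum fun j _ => av_exp _ (he j)
      _ = k * 2 := by simp
  have h5 : (k:ℝ)⁻¹ * ∑ j, av (fun g => Real.exp ⟪sg g, e j⟫) ≤ 2 := by
    rw [inv_mul_le_iff₀ hkpos]; exact h4
  rw [h1]
  refine h2.trans ?_
  rw [h3, mul_comm]
  exact mul_le_mul_of_nonneg_right (by linarith) hH0

lemma amgm {k : ℕ} (hk : 1 ≤ k) (z : Fin k → ℝ) (hz : ∀ i, 0 ≤ z i) :
    ∏ i, z i ≤ ((∑ i, z i) / k) ^ k := by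
  have hkpos : (0:ℝ) < k := by exact_mod_cast hk
  have h := Real.geom_mean_le_arith_mean_weighted Finset.univ (fun _ : Fin k => (k:ℝ)⁻¹) z
    (fun _ _ => by positivity) (by simp; field_simp) (fun i _ => hz i)
  have h2 := pow_le_pow_left₀ (Finset.prod_nonneg fun i _ => Real.rpow_nonneg (hz i) _) h k
  rw [← Finset.prod_pow] at h2
  have h3 : ∀ i, (z i ^ (k:ℝ)⁻¹) ^ k = z i := fun i =>
    Real.rpow_inv_natCast_pow (hz i) (by omega)
  simp only [h3] at h2
  rwa [← Finset.mul_sum, ← div_eq_inv_mul] at h2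

lemma det_bound {k : ℕ} (hk : 1 ≤ k) (a : Fin k → Eu k) (κ : Fin k → (Fin k → Bool) → ℝ)
    (err : Fin k → Eu k) (H : ℝ) (ha : ∀ j, a j = mm (κ j) + err j)
    (hc : ∀ i j, (∀ g, κ i g ≤ κ j g) ∨ (∀ g, κ j g ≤ κ i g))
    (h0 : ∀ j g, 0 ≤ κ j g) (hH : ∀ j g, κ j g ≤ H) (herr : ∀ j, ‖err j‖ ≤ 1) :
    |dt a| ≤ (((Real.log k + 2) * H + 2 * k) / k) ^ k := by
  obtain ⟨n, rfl⟩ : ∃ n, k = n + 1 := ⟨k - 1, by omega⟩
  let σ := Tuple.sort (fun j => ∑ g, κ j g)
  have hσ : Monotone ((fun j => ∑ g, κ j g) ∘ σ) := Tuple.monotone_sort _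
  have hmono : ∀ i j, i ≤ j → ∀ g, κ (σ i) g ≤ κ (σ j) g := by
    intro i j hij g
    rcases hc (σ i) (σ j) with h | h
    · exact h g
    · have h1 : ∑ g, κ (σ i) g ≤ ∑ g, κ (σ j) g := hσ hij
      by_contra h2
      push Not at h2
      have := Finset.sum_lt_sum (s := Finset.univ) (fun g _ => h g) ⟨g, Finset.mem_univ _, h2⟩
      linarith
  let u : Fin (n + 1) → Eu (n + 1) :=
    Fin.cases (a (σ 0)) (fun i => a (σ i.succ) - a (σ i.castSucc))
  let δ : Fin (n + 1) → (Fin (n + 1) → Bool) → ℝ :=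
    Fin.cases (κ (σ 0)) (fun i g => κ (σ i.succ) g - κ (σ i.castSucc) g)
  have hdt : |dt a| = |dt u| := by
    have h1 := dt_perm a σ
    have h2 : dt (fun j => a (σ j)) = dt u := by
      unfold dt
      refine Matrix.det_eq_of_forall_col_eq_smul_add_pred (fun _ => 1) ?_ ?_
      · intro i; simp [u]
      · intro i j; simp [u]
    rw [← h2, h1, abs_mul]
    rcases Int.units_eq_one_or (Equiv.Perm.sign σ) with h | h <;> simp [h]
  have hu : ∀ j, ‖u j‖ ≤ ‖mm (δ j)‖ + 2 := by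
    intro j
    refine Fin.cases ?_ (fun i => ?_) j
    · simp only [u, δ, Fin.cases_zero, ha]
      have := norm_add_le (mm (κ (σ 0))) (err (σ 0))
      linarith [herr (σ 0)]
    · simp only [u, δ, Fin.cases_succ, ha, mm_sub]
      have h1 : mm (κ (σ i.succ)) + err (σ i.succ) - (mm (κ (σ i.castSucc)) + err (σ i.castSucc))
          = (mm (κ (σ i.succ)) - mm (κ (σ i.castSucc))) + (err (σ i.succ) - err (σ i.castSucc)) := by
        abel
      rw [h1]
      have h2 := norm_add_le (mm (κ (σ i.succ)) - mm (κ (σ i.castSucc)))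
        (err (σ i.succ) - err (σ i.castSucc))
      have h3 := norm_sub_le (err (σ i.succ)) (err (σ i.castSucc))
      linarith [herr (σ i.succ), herr (σ i.castSucc)]
  have hδ0 : ∀ j g, 0 ≤ δ j g := by
    intro j g
    refine Fin.cases ?_ (fun i => ?_) j
    · simp only [δ, Fin.cases_zero]; exact h0 _ _
    · simp only [δ, Fin.cases_succ]
      exact sub_nonneg.2 (hmono _ _ (Fin.castSucc_lt_succ).le g)
  have hδH : ∀ g, ∑ j, δ j g ≤ H := by
    intro g
    rw [Fin.sum_univ_succ]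
    simp only [δ, Fin.cases_zero, Fin.cases_succ, Finset.sum_sub_distrib]
    have h1 := Fin.sum_univ_succ (fun j => κ (σ j) g)
    have h2 := Fin.sum_univ_castSucc (fun j => κ (σ j) g)
    have h3 := hH (σ (Fin.last n)) g
    linarith
  have hs := sum_norm_mm hk δ H hδ0 hδH
  rw [hdt]
  refine (hadamard u).trans ((amgm hk _ (fun i => norm_nonneg _)).trans ?_)
  refine pow_le_pow_left₀ (by positivity) ?_ _
  refine div_le_div_of_nonneg_right ?_ (by positivity)
  calc ∑ i, ‖u i‖ ≤ ∑ i, (‖mm (δ i)‖ + 2) := Finset.sum_le_sum fun i _ => hu i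
    _ = ∑ i, ‖mm (δ i)‖ + 2 * ((n + 1 : ℕ) : ℝ) := by
        rw [Finset.sum_add_distrib]; simp [mul_comm]
    _ ≤ _ := by linarith

end Pool.Agent.H763Z.LD
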