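import Mathlib
import Pool.Agent.H763Z.LD.Det

open Finset
open scoped RealInnerProductSpace

namespace Pool.Agent.H763Z.LD

lemma hasDerivAt_posPow {P : ℕ} (hP : 2 ≤ P) (t : ℝ) :
    HasDerivAt (fun t : ℝ => (max t 0) ^ P) (P * (max t 0) ^ (P - 1)) t := by
  rcases lt_trichotomy t 0 with h | h | h
  · have h1 : (fun t : ℝ => (max t 0) ^ P) =ᶠ[nhds t] fun _ => 0 := by
      filter_upwards [Iio_mem_nhds h] with s hs
      rw [max_eq_right (le_of_lt hs), zero_pow (by omega)]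
    rw [max_eq_right h.le, zero_pow (by omega), mul_zero]
    exact (hasDerivAt_const t (0:ℝ)).congr_of_eventuallyEq h1
  · subst h
    rw [max_self, zero_pow (by omega), mul_zero, hasDerivAt_iff_isLittleO]
    simp only [max_self, sub_zero, smul_zero]
    rw [zero_pow (by omega)]
    simp only [sub_zero]
    refine Asymptotics.IsBigO.trans_isLittleO (g := fun x : ℝ => x ^ P) ?_
      (Asymptotics.isLittleO_pow_id (by omega))
    refine Asymptotics.IsBigO.of_bound 1 (Filter.Eventually.of_forall fun x => ?_)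
    rw [one_mul, norm_pow, norm_pow]
    refine pow_le_pow_left₀ (norm_nonneg _) ?_ _
    rw [Real.norm_eq_abs, Real.norm_eq_abs, abs_of_nonneg (le_max_right _ _)]
    exact max_le (le_abs_self _) (abs_nonneg _)
  · have h1 : (fun t : ℝ => (max t 0) ^ P) =ᶠ[nhds t] fun s => s ^ P := by
      filter_upwards [Ioi_mem_nhds h] with s hs
      rw [max_eq_left (le_of_lt hs)]
    rw [max_eq_left h.le]
    exact (hasDerivAt_pow P t).congr_of_eventuallyEq h1

/-- the bump kernel -/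
noncomputable def Kf {k : ℕ} (P : ℕ) (p x : Eu k) : ℝ := (max (1 - ‖x - p‖ ^ 2 / k) 0) ^ P

/-- its derivative -/
noncomputable def Kd {k : ℕ} (P : ℕ) (p x : Eu k) : Eu k →L[ℝ] ℝ :=
  ((P:ℝ) * (max (1 - ‖x - p‖ ^ 2 / (k:ℝ)) 0) ^ (P - 1) * (-2 / (k:ℝ))) • innerSL ℝ (x - p)

lemma Kf_nonneg {k : ℕ} (P : ℕ) (p x : Eu k) : 0 ≤ Kf P p x :=
  pow_nonneg (le_max_right _ _) _

lemma hasFDerivAt_Kf {k P : ℕ} (hP : 2 ≤ P) (p x : Eu k) :
    HasFDerivAt (Kf P p) (Kd P p x) x := by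
  have h1 : HasFDerivAt (fun x : Eu k => x - p) (ContinuousLinearMap.id ℝ (Eu k)) x :=
    (hasFDerivAt_id x).sub_const p
  have h2 := ((h1.norm_sq).mul_const ((k:ℝ)⁻¹)).const_sub 1
  have h3 := (hasDerivAt_posPow hP (1 - ‖x - p‖ ^ 2 * (k:ℝ)⁻¹)).comp_hasFDerivAt x h2
  have h4 : Kf P p = (fun t : ℝ => (max t 0) ^ P) ∘ fun y => 1 - ‖y - p‖ ^ 2 * (k:ℝ)⁻¹ := by
    ext y; simp [Kf, div_eq_mul_inv]
  rw [h4]
  refine h3.congr_fderiv ?_
  ext v
  simp [Kd, div_eq_mul_inv]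
  ring

lemma Kf_inactive {k P : ℕ} (hk : 1 ≤ k) (hP : 2 ≤ P) (p x : Eu k) (h : (k:ℝ) ≤ ‖x - p‖ ^ 2) :
    Kf P p x = 0 ∧ Kd P p x = 0 := by
  have hkpos : (0:ℝ) < k := by exact_mod_cast hk
  have h1 : max (1 - ‖x - p‖ ^ 2 / k) 0 = 0 := by
    apply max_eq_right
    have := (one_le_div hkpos).2 h
    linarith
  unfold Kf Kd
  rw [h1, zero_pow (by omega), zero_pow (by omega)]
  simp

lemma Kf_lower {k : ℕ} (P : ℕ) (hk : 1 ≤ k) (p x : Eu k) (h : ‖x - p‖ ^ 2 ≤ k / 4) :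
    (3 / 4 : ℝ) ^ P ≤ Kf P p x := by
  have hkpos : (0:ℝ) < k := by exact_mod_cast hk
  refine pow_le_pow_left₀ (by norm_num) (le_max_of_le_left ?_) _
  have : ‖x - p‖ ^ 2 / k ≤ 1 / 4 := by
    rw [div_le_iff₀ hkpos]; linarith
  linarith

lemma norm_Kd {k P : ℕ} (hk : 1 ≤ k) (hP : 2 ≤ P) (p x : Eu k) :
    ‖Kd P p x‖ ≤ 4 * P / √(k:ℝ) * (Kf P p x + (1 / 2) ^ P) := by
  have hkpos : (0:ℝ) < k := by exact_mod_cast hk
  have hs : 0 < √(k:ℝ) := Real.sqrt_pos.2 hkpos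
  by_cases h : (k:ℝ) ≤ ‖x - p‖ ^ 2
  · rw [(Kf_inactive hk hP p x h).2, norm_zero]
    have := Kf_nonneg P p x
    positivity
  · push Not at h
    have hx : ‖x - p‖ ≤ √(k:ℝ) := Real.le_sqrt_of_sq_le h.le
    unfold Kd Kf
    set s := max (1 - ‖x - p‖ ^ 2 / k) 0 with hsdef
    have hs0 : 0 ≤ s := le_max_right _ _
    obtain ⟨Q, rfl⟩ : ∃ Q, P = Q + 1 := ⟨P - 1, by omega⟩
    have h1 : s ^ Q ≤ 2 * (s ^ (Q + 1) + (1 / 2) ^ (Q + 1)) := by
      rcases le_total s (1 / 2) with h2 | h2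
      · have := pow_le_pow_left₀ hs0 h2 Q
        have h3 : 0 ≤ s ^ (Q + 1) := by positivity
        rw [pow_succ (1 / 2 : ℝ)]
        linarith
      · have h3 : (0:ℝ) ≤ (1 / 2) ^ (Q + 1) := by positivity
        have h4 : 0 ≤ s ^ Q := by positivity
        rw [pow_succ s]
        nlinarith
    rw [norm_smul, innerSL_apply_norm, Real.norm_eq_abs, Nat.add_sub_cancel]
    have h5 : |((Q + 1 : ℕ) : ℝ) * s ^ Q * (-2 / k)| = ((Q + 1 : ℕ) : ℝ) * s ^ Q * (2 / k) := by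
      rw [abs_mul, abs_of_nonneg (by positivity), neg_div, abs_neg, abs_of_nonneg (by positivity)]
    rw [h5]
    have h6 : (2 / (k:ℝ)) * ‖x - p‖ ≤ 2 / √(k:ℝ) := by
      have h7 : (2 / (k:ℝ)) * √(k:ℝ) = 2 / √(k:ℝ) := by
        have := Real.mul_self_sqrt hkpos.le
        field_simp
        nlinarith
      rw [← h7]
      exact mul_le_mul_of_nonneg_left hx (by positivity)
    calc ((Q + 1 : ℕ) : ℝ) * s ^ Q * (2 / k) * ‖x - p‖
        = ((Q + 1 : ℕ) : ℝ) * (s ^ Q * ((2 / k) * ‖x - p‖)) := by ring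
      _ ≤ ((Q + 1 : ℕ) : ℝ) * ((2 * (s ^ (Q + 1) + (1 / 2) ^ (Q + 1))) * (2 / √(k:ℝ))) := by
          refine mul_le_mul_of_nonneg_left ?_ (by positivity)
          exact mul_le_mul h1 h6 (by positivity) (by positivity)
      _ = _ := by ring

section abstractWeights

variable {E : Type*} [NormedAddCommGroup E] [NormedSpace ℝ E]
variable {Y L : Type*} [Fintype Y] [DecidableEq L]

/-- total kernel mass of a level -/
noncomputable def aa (lv : Y → L) (K : Y → E → ℝ) (l : L) (x : E) : ℝ :=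
  ∑ y ∈ univ.filter (fun y => lv y = l), K y x

/-- unnormalised weight -/
noncomputable def om (lv : Y → L) (K : Y → E → ℝ) (ε γ : ℝ) (y : Y) (x : E) : ℝ :=
  K y x * (aa lv K (lv y) x + ε) ^ (γ - 1)

omit [NormedAddCommGroup E] [NormedSpace ℝ E] in
lemma sum_om (lv : Y → L) (K : Y → E → ℝ) (ε γ : ℝ) (l : L) (x : E) :
    ∑ y ∈ univ.filter (fun y => lv y = l), om lv K ε γ y x
      = aa lv K l x * (aa lv K l x + ε) ^ (γ - 1) := by
  conv_rhs => rw [aa, Finset.sum_mul]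
  refine Finset.sum_congr rfl fun y hy => ?_
  rw [om, (Finset.mem_filter.1 hy).2]
  rfl

lemma weights (lv : Y → L) (K : Y → E → ℝ) (K' : Y → E →L[ℝ] ℝ) (x : E) (ε γ J : ℝ)
    (hε : 0 < ε) (hγ0 : 0 ≤ γ) (hγ1 : γ ≤ 1) (hJ0 : 0 ≤ J)
    (hK : ∀ y, HasFDerivAt (K y) (K' y) x) (hK0 : ∀ y, 0 ≤ K y x)
    (hJ : ∀ l, ∑ y ∈ univ.filter (fun y => lv y = l), ‖K' y‖ ≤ J * (aa lv K l x + ε)) :
    ∃ ω' : Y → E →L[ℝ] ℝ, (∀ y, HasFDerivAt (om lv K ε γ y) (ω' y) x) ∧
      (∀ y, K y x = 0 → K' y = 0 → ω' y = 0) ∧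
      (∀ l, ‖∑ y ∈ univ.filter (fun y => lv y = l), ω' y‖
        ≤ J * (γ * ∑ y ∈ univ.filter (fun y => lv y = l), om lv K ε γ y x + ε ^ γ)) ∧
      (∀ l, ∑ y ∈ univ.filter (fun y => lv y = l), ‖ω' y‖
        ≤ J * (2 * ∑ y ∈ univ.filter (fun y => lv y = l), om lv K ε γ y x + ε ^ γ)) := by
  let a' : L → E →L[ℝ] ℝ := fun l => ∑ y ∈ univ.filter (fun y => lv y = l), K' y
  have ha : ∀ l, HasFDerivAt (aa lv K l) (a' l) x := fun l =>
    HasFDerivAt.fun_sum (fun y _ => hK y)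
  have ha0 : ∀ l, 0 ≤ aa lv K l x := fun l => Finset.sum_nonneg fun y _ => hK0 y
  have hu : ∀ l, 0 < aa lv K l x + ε := fun l => by linarith [ha0 l]
  have ha' : ∀ l, ‖a' l‖ ≤ J * (aa lv K l x + ε) := fun l => (norm_sum_le _ _).trans (hJ l)
  let G : L → ℝ := fun l => (aa lv K l x + ε) ^ (γ - 1)
  have hG0 : ∀ l, 0 ≤ G l := fun l => Real.rpow_nonneg (hu l).le _
  have hGε : ∀ l, ε * G l ≤ ε ^ γ := fun l => by
    have h1 : G l ≤ ε ^ (γ - 1) :=
      Real.rpow_le_rpow_of_nonpos hε (by linarith [ha0 l]) (by linarith)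
    have h2 : ε * ε ^ (γ - 1) = ε ^ γ := by
      rw [Real.rpow_sub_one hε.ne']; field_simp
    rw [← h2]
    exact mul_le_mul_of_nonneg_left h1 hε.le
  refine ⟨fun y => K y x • (((γ - 1) * (G (lv y) / (aa lv K (lv y) x + ε))) • a' (lv y))
      + G (lv y) • K' y, fun y => ?_, fun y h1 h2 => by simp [h1, h2], fun l => ?_, fun l => ?_⟩
  · have h1 := ((ha (lv y)).add_const ε).rpow_const (p := γ - 1) (Or.inl (hu (lv y)).ne')
    rw [Real.rpow_sub_one (hu (lv y)).ne'] at h1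
    exact (hK y).mul h1
  · have h1 : ∑ y ∈ univ.filter (fun y => lv y = l),
        (K y x • (((γ - 1) * (G (lv y) / (aa lv K (lv y) x + ε))) • a' (lv y)) + G (lv y) • K' y)
        = (G l * (γ * aa lv K l x + ε) / (aa lv K l x + ε)) • a' l := by
      rw [Finset.sum_congr rfl (fun y hy => by rw [(Finset.mem_filter.1 hy).2]),
        Finset.sum_add_distrib, ← Finset.sum_smul, ← Finset.smul_sum, smul_smul, ← add_smul]
      congr 1
      have := (hu l).ne'
      change aa lv K l x * _ + _ = _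
      field_simp
      ring
    rw [h1, sum_om, norm_smul, Real.norm_eq_abs,
      abs_of_nonneg (by have := ha0 l; have := hG0 l; positivity)]
    have h2 := mul_le_mul_of_nonneg_left (ha' l)
      (show 0 ≤ G l * (γ * aa lv K l x + ε) / (aa lv K l x + ε) by
        have := ha0 l; have := hG0 l; positivity)
    refine h2.trans ?_
    have h3 : G l * (γ * aa lv K l x + ε) / (aa lv K l x + ε) * (J * (aa lv K l x + ε))
        = J * (γ * (aa lv K l x * G l) + ε * G l) := by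
      have := (hu l).ne'
      field_simp
    rw [h3]
    exact mul_le_mul_of_nonneg_left (by linarith [hGε l]) hJ0
  · rw [sum_om]
    calc ∑ y ∈ univ.filter (fun y => lv y = l),
          ‖K y x • (((γ - 1) * (G (lv y) / (aa lv K (lv y) x + ε))) • a' (lv y)) + G (lv y) • K' y‖
        ≤ ∑ y ∈ univ.filter (fun y => lv y = l), (K y x * (G l * J) + G l * ‖K' y‖) := by
          refine Finset.sum_le_sum fun y hy => ?_
          rw [(Finset.mem_filter.1 hy).2]
          refine (norm_add_le _ _).trans (add_le_add ?_ ?_)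
          · rw [norm_smul, Real.norm_eq_abs, abs_of_nonneg (hK0 y)]
            refine mul_le_mul_of_nonneg_left ?_ (hK0 y)
            rw [norm_smul, Real.norm_eq_abs, abs_mul,
              abs_of_nonneg (div_nonneg (hG0 l) (hu l).le)]
            have h1 : |γ - 1| ≤ 1 := by rw [abs_le]; constructor <;> linarith
            have h2 : 0 ≤ G l / (aa lv K l x + ε) := div_nonneg (hG0 l) (hu l).le
            calc |γ - 1| * (G l / (aa lv K l x + ε)) * ‖a' l‖
                ≤ 1 * (G l / (aa lv K l x + ε)) * (J * (aa lv K l x + ε)) :=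
                  mul_le_mul (mul_le_mul_of_nonneg_right h1 h2) (ha' l) (norm_nonneg _)
                    (by positivity)
              _ = G l * J := by
                  have := (hu l).ne'
                  field_simp
          · rw [norm_smul, Real.norm_eq_abs, abs_of_nonneg (hG0 l)]
      _ = aa lv K l x * (G l * J) + G l * ∑ y ∈ univ.filter (fun y => lv y = l), ‖K' y‖ := by
          rw [Finset.sum_add_distrib, ← Finset.sum_mul, ← Finset.mul_sum]; rfl
      _ ≤ aa lv K l x * (G l * J) + G l * (J * (aa lv K l x + ε)) := by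
          gcongr
          · exact hG0 l
          · exact hJ l
      _ = J * (2 * (aa lv K l x * G l) + ε * G l) := by ring
      _ ≤ _ := mul_le_mul_of_nonneg_left (by linarith [hGε l]) hJ0

lemma quot_deriv (ω : Y → E → ℝ) (ω' : Y → E →L[ℝ] ℝ) (c : Y → E) (x : E)
    (hω : ∀ y, HasFDerivAt (ω y) (ω' y) x) (hZ : ∑ y, ω y x ≠ 0) :
    ∃ D : E →L[ℝ] E, HasFDerivAt (fun x => (∑ y, ω y x)⁻¹ • ∑ y, ω y x • c y) D x ∧
      ∀ v, D v = ∑ y, ((∑ y, ω y x)⁻¹ * ω' y v) • (c y - x)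
        - ∑ y, ((∑ y, ω y x)⁻¹ * (∑ y, ω y x)⁻¹ * ω y x * (∑ y, ω' y) v) • (c y - x) := by
  have h1 : HasFDerivAt (fun x => ∑ y, ω y x) (∑ y, ω' y) x :=
    HasFDerivAt.fun_sum (fun y _ => hω y)
  have h2 : HasFDerivAt (fun x => ∑ y, ω y x • c y) (∑ y, (ω' y).smulRight (c y)) x :=
    HasFDerivAt.fun_sum (fun y _ => (hω y).smul_const (c y))
  have h3 := (hasDerivAt_inv hZ).comp_hasFDerivAt x h1
  refine ⟨_, h3.smul h2, fun v => ?_⟩
  simp only [smul_sub, Finset.sum_sub_distrib, ← Finset.sum_smul, ← Finset.mul_sum,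
    ← Finset.sum_mul]
  set Z := ∑ y, ω y x with hZdef
  have h4 : Z⁻¹ * Z⁻¹ * Z * (∑ y, ω' y) v = Z⁻¹ * ∑ y, ω' y v := by
    rw [_root_.sum_apply]; field_simp
  rw [h4]
  simp only [_root_.add_apply, _root_.smul_apply, Function.comp,
    ContinuousLinearMap.smulRight_apply, _root_.sum_apply, Finset.smul_sum,
    smul_smul, smul_eq_mul, ← hZdef]
  have h5 : ∀ y, (-(Z ^ 2)⁻¹ * ∑ y, ω' y v) * ω y x = -(Z⁻¹ * Z⁻¹ * ω y x * ∑ y, ω' y v) := by
    intro y; field_simp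
  simp only [← Finset.mul_sum, h5, neg_smul, Finset.sum_neg_distrib]
  abel

end abstractWeights

end Pool.Agent.H763Z.LD
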