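import Mathlib
import Pool.Agent.H763Z.LD.Sign
import Pool.Agent.H763Z.LD.Weights

open Finset
open scoped RealInnerProductSpace

namespace Pool.Agent.H763Z.LD

/-- the interpolating map -/
noncomputable def CC {k : ℕ} {Y L : Type*} [Fintype Y] [DecidableEq L] (pos : Y → Eu k)
    (h : Y → (Fin k → Bool) → ℝ) (lv : Y → L) (q N : ℕ) (x : Eu k) : Eu k :=
  (∑ y, om lv (fun y => Kf (q * N) (pos y)) ((2 * (1 / 2) ^ q) ^ N) (N:ℝ)⁻¹ y x)⁻¹ •
    ∑ y, om lv (fun y => Kf (q * N) (pos y)) ((2 * (1 / 2) ^ q) ^ N) (N:ℝ)⁻¹ y x • mm (h y)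

lemma wl_lower {a b ε : ℝ} {N : ℕ} (hN : 1 ≤ N) (hb : 0 ≤ b) (hε : 0 < ε) (h1 : ε ≤ b ^ N)
    (h2 : b ^ N ≤ a) : b / 2 ≤ a * (a + ε) ^ ((N:ℝ)⁻¹ - 1) := by
  have ha : 0 < a := by linarith
  have hu : 0 < a + ε := by linarith
  rw [Real.rpow_sub_one hu.ne']
  have h3 : b ≤ (a + ε) ^ (N:ℝ)⁻¹ := by
    calc b = (b ^ N) ^ (N:ℝ)⁻¹ := (Real.pow_rpow_inv_natCast hb (by omega)).symm
      _ ≤ _ := Real.rpow_le_rpow (by positivity) (by linarith) (by positivity)
  rw [← mul_div_assoc, le_div_iff₀ hu]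
  nlinarith

lemma mm_close {k : ℕ} (f f' : (Fin k → Bool) → ℝ)
    (hc : (∀ g, f g ≤ f' g) ∨ (∀ g, f' g ≤ f g)) :
    ‖mm f - mm f'‖ ≤ √(k:ℝ) * |av f - av f'| := by
  rcases hc with hc | hc
  · rw [norm_sub_rev, abs_sub_comm, ← mm_sub]
    refine (norm_mm_le _ fun g => sub_nonneg.2 (hc g)).trans ?_
    rw [av_sub]
    exact mul_le_mul_of_nonneg_left (le_abs_self _) (Real.sqrt_nonneg _)
  · rw [← mm_sub]
    refine (norm_mm_le _ fun g => sub_nonneg.2 (hc g)).trans ?_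
    rw [av_sub]
    exact mul_le_mul_of_nonneg_left (le_abs_self _) (Real.sqrt_nonneg _)

theorem jac {k : ℕ} (hk : 1 ≤ k) {Y L : Type} [Fintype Y] [DecidableEq Y] [Fintype L]
    [DecidableEq L] (pos : Y → Eu k) (h : Y → (Fin k → Bool) → ℝ) (lv : Y → L) (q N : ℕ) (A : ℝ)
    (hq : 2 ≤ q) (hN : 1 ≤ N) (hcard : Fintype.card Y ≤ 2 ^ N)
    (hL : 4 * N * (Fintype.card L : ℝ) ≤ (3 / 2) ^ q)
    (h1 : ∀ u v, ‖pos u - pos v‖ ^ 2 ≤ 4 * k → (∀ g, h u g ≤ h v g) ∨ (∀ g, h v g ≤ h u g))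
    (h2 : ∀ u g, 0 ≤ h u g - ⟪sg g, pos u⟫ ∧ h u g - ⟪sg g, pos u⟫ ≤ A)
    (hlv : ∀ u v, lv u = lv v → √(k:ℝ) * |av (h u) - av (h v)| ≤ ((q * N : ℕ) : ℝ)⁻¹)
    (x : Eu k) (hx : ∃ y, ‖x - pos y‖ ^ 2 ≤ k / 4) :
    ∃ D : Eu k →L[ℝ] Eu k, HasFDerivAt (CC pos h lv q N) D x ∧
      (k.factorial : ℝ) * |D.det|
        ≤ (((Real.log k + 2) * (A + 2 * k) + 2 * k) / k) ^ k * (22 * q / √(k:ℝ)) ^ k ∧
      ‖CC pos h lv q N x - x‖ ≤ √(k:ℝ) * (A + 2 * k) := by
  classical
  obtain ⟨y₀, hy₀⟩ := hx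
  have hkpos : (0:ℝ) < k := by exact_mod_cast hk
  have hs : 0 < √(k:ℝ) := Real.sqrt_pos.2 hkpos
  have hNpos : (0:ℝ) < N := by exact_mod_cast hN
  have hN1 : (1:ℝ) ≤ N := by exact_mod_cast hN
  have hq2 : (2:ℝ) ≤ q := by exact_mod_cast hq
  have hP : 2 ≤ q * N := by nlinarith
  have hPpos : (0:ℝ) < ((q * N : ℕ) : ℝ) := by exact_mod_cast (by omega : 0 < q * N)
  unfold CC
  set P := q * N with hPdef
  set ε : ℝ := (2 * (1 / 2) ^ q) ^ N with hεdef
  set γ : ℝ := (N:ℝ)⁻¹ with hγdef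
  set J : ℝ := 4 * P / √(k:ℝ) with hJdef
  set K : Y → Eu k → ℝ := fun y => Kf P (pos y) with hKdef
  have hε : 0 < ε := by positivity
  have hγ0 : 0 ≤ γ := by positivity
  have hγ1 : γ ≤ 1 := inv_le_one_of_one_le₀ hN1
  have hJ0 : 0 ≤ J := by positivity
  have hK0 : ∀ y, 0 ≤ K y x := fun y => Kf_nonneg _ _ _
  have hJ : ∀ l, ∑ y ∈ univ.filter (fun y => lv y = l), ‖Kd P (pos y) x‖
      ≤ J * (aa lv K l x + ε) := by
    intro l
    calc ∑ y ∈ univ.filter (fun y => lv y = l), ‖Kd P (pos y) x‖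
        ≤ ∑ y ∈ univ.filter (fun y => lv y = l), J * (K y x + (1 / 2) ^ P) :=
          Finset.sum_le_sum fun y _ => norm_Kd hk hP (pos y) x
      _ = J * (aa lv K l x + ((univ.filter (fun y => lv y = l)).card : ℝ) * (1 / 2) ^ P) := by
          rw [← Finset.mul_sum, Finset.sum_add_distrib, Finset.sum_const, nsmul_eq_mul]; rfl
      _ ≤ J * (aa lv K l x + ε) := by
          refine mul_le_mul_of_nonneg_left (add_le_add le_rfl ?_) hJ0
          have h3 : ((univ.filter (fun y => lv y = l)).card : ℝ) ≤ 2 ^ N := by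
            exact_mod_cast (Finset.card_le_univ _).trans hcard
          rw [hεdef, mul_pow, ← pow_mul]
          exact mul_le_mul_of_nonneg_right h3 (by positivity)
  obtain ⟨ω', hω1, hω2, hω3, hω4⟩ := weights lv K (fun y => Kd P (pos y) x) x ε γ J hε hγ0 hγ1 hJ0
    (fun y => hasFDerivAt_Kf hP (pos y) x) hK0 hJ
  have ha0 : ∀ l, 0 ≤ aa lv K l x := fun l => Finset.sum_nonneg fun y _ => hK0 y
  have hω0 : ∀ y, 0 ≤ om lv K ε γ y x := fun y =>
    mul_nonneg (hK0 y) (Real.rpow_nonneg (by linarith [ha0 (lv y)]) _)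
  set Z := ∑ y, om lv K ε γ y x with hZdef
  have hZw : ∑ l, ∑ y ∈ univ.filter (fun y => lv y = l), om lv K ε γ y x = Z :=
    Finset.sum_fiberwise _ _ _
  have hcL : (1:ℝ) ≤ Fintype.card L := by
    exact_mod_cast Fintype.card_pos_iff.2 ⟨lv y₀⟩
  have h34 : (3 / 4 : ℝ) ^ q = (3 / 2) ^ q * (1 / 2) ^ q := by rw [← mul_pow]; norm_num
  have hhalf : (0:ℝ) < (1 / 2) ^ q := by positivity
  have hZlow : (3 / 4 : ℝ) ^ q / 2 ≤ Z := by
    have h3 : ε ≤ ((3 / 4 : ℝ) ^ q) ^ N := by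
      refine pow_le_pow_left₀ (by positivity) ?_ _
      rw [h34]
      refine mul_le_mul_of_nonneg_right ?_ hhalf.le
      nlinarith
    have h4 : ((3 / 4 : ℝ) ^ q) ^ N ≤ aa lv K (lv y₀) x := by
      rw [← pow_mul]
      refine (Kf_lower P hk (pos y₀) x hy₀).trans ?_
      exact Finset.single_le_sum (f := fun y => K y x) (fun y _ => hK0 y)
        (Finset.mem_filter.2 ⟨Finset.mem_univ y₀, rfl⟩)
    refine (wl_lower hN (by positivity) hε h3 h4).trans ?_
    rw [← sum_om]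
    exact Finset.sum_le_sum_of_subset_of_nonneg (Finset.subset_univ _) fun y _ _ => hω0 y
  have hZpos : 0 < Z := lt_of_lt_of_le (by positivity) hZlow
  have hεγ : (Fintype.card L : ℝ) * ε ^ γ ≤ γ * Z := by
    rw [hεdef, hγdef, Real.pow_rpow_inv_natCast (by positivity) (by omega),
      le_inv_mul_iff₀ hNpos]
    have := mul_le_mul_of_nonneg_right hL hhalf.le
    rw [h34] at hZlow
    nlinarith
  have hW : ∑ l, ‖∑ y ∈ univ.filter (fun y => lv y = l), ω' y‖ ≤ 2 * (J * γ) * Z := by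
    refine (Finset.sum_le_sum fun l _ => hω3 l).trans ?_
    rw [← Finset.mul_sum, Finset.sum_add_distrib, ← Finset.mul_sum, hZw, Finset.sum_const,
      Finset.card_univ, nsmul_eq_mul]
    have := mul_le_mul_of_nonneg_left hεγ hJ0
    nlinarith
  have hΩ : ∑ y, ‖ω' y‖ ≤ 3 * J * Z := by
    rw [← Finset.sum_fiberwise (g := lv)]
    refine (Finset.sum_le_sum fun l _ => hω4 l).trans ?_
    rw [← Finset.mul_sum, Finset.sum_add_distrib, ← Finset.mul_sum, hZw, Finset.sum_const,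
      Finset.card_univ, nsmul_eq_mul]
    have h3 : (Fintype.card L : ℝ) * ε ^ γ ≤ Z := hεγ.trans (by nlinarith)
    have := mul_le_mul_of_nonneg_left h3 hJ0
    nlinarith
  have hZ' : ‖∑ y, ω' y‖ ≤ 2 * (J * γ) * Z := by
    rw [← Finset.sum_fiberwise (g := lv)]
    exact (norm_sum_le _ _).trans hW
  -- active points
  let act : Y → Prop := fun y => ‖x - pos y‖ ^ 2 < k
  have hin : ∀ y, ¬ act y → om lv K ε γ y x = 0 ∧ ω' y = 0 := by
    intro y hy
    have h3 := Kf_inactive hk hP (pos y) x (not_lt.1 hy)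
    refine ⟨?_, hω2 y h3.1 h3.2⟩
    have h4 : K y x = 0 := h3.1
    rw [om, h4, zero_mul]
  have hnorm : ∀ y, act y → ‖x - pos y‖ ≤ √(k:ℝ) := fun y hy => Real.le_sqrt_of_sq_le (le_of_lt hy)
  have hcomp : ∀ u v, act u → act v → (∀ g, h u g ≤ h v g) ∨ (∀ g, h v g ≤ h u g) := by
    intro u v hu hv
    apply h1
    have h3 : ‖pos u - pos v‖ ≤ 2 * √(k:ℝ) := by
      have h4 : pos u - pos v = (x - pos v) - (x - pos u) := by abel
      rw [h4]
      have := norm_sub_le (x - pos v) (x - pos u)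
      linarith [hnorm u hu, hnorm v hv]
    have h5 := pow_le_pow_left₀ (norm_nonneg _) h3 2
    rw [mul_pow, Real.sq_sqrt hkpos.le] at h5
    linarith
  have hrep : ∀ l, ∃ r : Y, ∀ y, lv y = l → act y → lv r = l ∧ act r := by
    intro l
    by_cases hl : ∃ y, lv y = l ∧ act y
    · obtain ⟨r, hr⟩ := hl
      exact ⟨r, fun _ _ _ => hr⟩
    · exact ⟨y₀, fun y h3 h4 => absurd ⟨y, h3, h4⟩ hl⟩
  choose rep hrep using hrep
  let κ : Y → (Fin k → Bool) → ℝ := fun y g => if act y then h y g - ⟪sg g, x⟫ + k else 0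
  have hA0 : 0 ≤ A := (h2 y₀ fun _ => true).1.trans (h2 y₀ fun _ => true).2
  have hκ : ∀ y g, 0 ≤ κ y g ∧ κ y g ≤ A + 2 * k := by
    intro y g
    simp only [κ]
    split_ifs with hy
    · have h3 : |⟪sg g, x - pos y⟫| ≤ k := by
        refine (abs_real_inner_le_norm _ _).trans ?_
        rw [norm_sg]
        calc √(k:ℝ) * ‖x - pos y‖ ≤ √(k:ℝ) * √(k:ℝ) :=
              mul_le_mul_of_nonneg_left (hnorm y hy) hs.le
          _ = k := Real.mul_self_sqrt hkpos.le
      rw [inner_sub_right, abs_le] at h3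
      have := h2 y g
      constructor <;> linarith
    · constructor
      · exact le_rfl
      · positivity
  have hκc : ∀ u v, (∀ g, κ u g ≤ κ v g) ∨ (∀ g, κ v g ≤ κ u g) := by
    intro u v
    by_cases hu : act u
    · by_cases hv : act v
      · rcases hcomp u v hu hv with h3 | h3
        · left; intro g; simp only [κ, if_pos hu, if_pos hv]; linarith [h3 g]
        · right; intro g; simp only [κ, if_pos hu, if_pos hv]; linarith [h3 g]
      · right; intro g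
        have := (hκ u g).1
        simp only [κ, if_neg hv] at this ⊢
        exact this
    · left; intro g
      have := (hκ v g).1
      simp only [κ, if_neg hu] at this ⊢
      exact this
  have hα : ∀ y, act y → mm (κ y) = mm (h y) - x := by
    intro y hy
    have : κ y = fun g => (h y g - ⟪sg g, x⟫) + (k:ℝ) := by
      ext g; simp only [κ, if_pos hy]
    rw [this, mm_add, mm_sub, mm_inner, mm_const, add_zero]
  let errv : Y → Eu k := fun y =>
    if act y then (P:ℝ) • (mm (h y) - mm (h (rep (lv y)))) else 0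
  have herrv : ∀ y, ‖errv y‖ ≤ 1 := by
    intro y
    simp only [errv]
    split_ifs with hy
    · obtain ⟨h3, h4⟩ := hrep (lv y) y rfl hy
      rw [norm_smul, Real.norm_eq_abs, abs_of_pos hPpos]
      have h5 := (mm_close _ _ (hcomp y _ hy h4)).trans (hlv y _ h3.symm)
      calc (P:ℝ) * ‖mm (h y) - mm (h (rep (lv y)))‖ ≤ (P:ℝ) * (P:ℝ)⁻¹ :=
            mul_le_mul_of_nonneg_left h5 hPpos.le
        _ = 1 := mul_inv_cancel₀ hPpos.ne'
    · simp
  obtain ⟨D, hD1, hD2⟩ := quot_deriv (om lv K ε γ) ω' (fun y => mm (h y)) x hω1 hZpos.ne'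
  rw [← hZdef] at hD2
  refine ⟨D, hD1, ?_, ?_⟩
  · let κS : L ⊕ Y ⊕ Y → (Fin k → Bool) → ℝ :=
      Sum.elim (fun l => κ (rep l)) (Sum.elim (fun _ _ => 0) κ)
    let eS : L ⊕ Y ⊕ Y → Eu k := Sum.elim (fun _ => 0) (Sum.elim errv (fun _ => 0))
    let bS : L ⊕ Y ⊕ Y → Eu k →L[ℝ] ℝ :=
      Sum.elim (fun l => Z⁻¹ • ∑ y ∈ univ.filter (fun y => lv y = l), ω' y)
        (Sum.elim (fun y => ((P:ℝ)⁻¹ * Z⁻¹) • ω' y)
          (fun y => (-(Z⁻¹ * Z⁻¹ * om lv K ε γ y x)) • ∑ y, ω' y))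
    have hκS : ∀ s, κS s = (fun _ => 0) ∨ ∃ y, κS s = κ y := by
      rintro (l | y | y)
      · exact Or.inr ⟨_, rfl⟩
      · exact Or.inl rfl
      · exact Or.inr ⟨_, rfl⟩
    have hκS0 : ∀ s g, 0 ≤ κS s g ∧ κS s g ≤ A + 2 * k := by
      intro s g
      rcases hκS s with h3 | ⟨y, h3⟩
      · rw [h3]; exact ⟨le_rfl, by positivity⟩
      · rw [h3]; exact hκ y g
    have hκSc : ∀ s s', (∀ g, κS s g ≤ κS s' g) ∨ (∀ g, κS s' g ≤ κS s g) := by
      intro s s'
      rcases hκS s with h3 | ⟨y, h3⟩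
      · left; intro g; rw [h3]; exact (hκS0 s' g).1
      · rcases hκS s' with h4 | ⟨y', h4⟩
        · right; intro g; rw [h4]; exact (hκS0 s g).1
        · rw [h3, h4]; exact hκc y y'
    have heS : ∀ s, ‖eS s‖ ≤ 1 := by
      rintro (l | y | y)
      · simp [eS]
      · exact herrv y
      · simp [eS]
    have hcb := cb (fun s => mm (κS s) + eS s) bS _
      (fun f => det_bound hk _ (fun j => κS (f j)) (fun j => eS (f j)) (A + 2 * k)
        (fun j => rfl) (fun i j => hκSc _ _) (fun j g => (hκS0 _ g).1) (fun j g => (hκS0 _ g).2)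
        (fun j => heS _)) D (by
          intro v
          rw [hD2, Fintype.sum_sum_type, Fintype.sum_sum_type]
          simp only [κS, eS, bS, Sum.elim_inl, Sum.elim_inr, add_zero, mm_const, zero_add,
            _root_.smul_apply, smul_eq_mul]
          have h3 : ∑ l, (Z⁻¹ * (∑ y ∈ univ.filter (fun y => lv y = l), ω' y) v) • mm (κ (rep l))
              = ∑ y, (Z⁻¹ * ω' y v) • mm (κ (rep (lv y))) := by
            rw [← Finset.sum_fiberwise (g := lv)
              (f := fun y => (Z⁻¹ * ω' y v) • mm (κ (rep (lv y))))]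
            refine Finset.sum_congr rfl fun l _ => ?_
            rw [_root_.sum_apply, Finset.mul_sum, Finset.sum_smul]
            refine Finset.sum_congr rfl fun y hy => ?_
            rw [(Finset.mem_filter.1 hy).2]
          rw [h3, ← add_assoc, ← Finset.sum_add_distrib, sub_eq_add_neg, ← Finset.sum_neg_distrib]
          congr 1
          · refine Finset.sum_congr rfl fun y _ => ?_
            by_cases hy : act y
            · obtain ⟨h4, h5⟩ := hrep (lv y) y rfl hy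
              simp only [errv, if_pos hy]
              rw [hα _ h5, smul_smul]
              have h6 : (P:ℝ)⁻¹ * Z⁻¹ * ω' y v * P = Z⁻¹ * ω' y v := by field_simp
              rw [h6, ← smul_add]
              congr 1
              abel
            · simp [(hin y hy).2]
          · refine Finset.sum_congr rfl fun y _ => ?_
            by_cases hy : act y
            · rw [hα _ hy, neg_mul, neg_smul]
            · simp [(hin y hy).1])
    refine hcb.trans (mul_le_mul_of_nonneg_left (pow_le_pow_left₀ (by positivity) ?_ _) ?_)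
    · rw [Fintype.sum_sum_type, Fintype.sum_sum_type]
      simp only [bS, Sum.elim_inl, Sum.elim_inr, norm_smul, Real.norm_eq_abs, abs_neg]
      have hZi : 0 < Z⁻¹ := inv_pos.2 hZpos
      have h3 : ∀ y, |Z⁻¹ * Z⁻¹ * om lv K ε γ y x| = Z⁻¹ * Z⁻¹ * om lv K ε γ y x := fun y =>
        abs_of_nonneg (mul_nonneg (by positivity) (hω0 y))
      simp only [h3]
      rw [abs_of_pos hZi, abs_of_pos (by positivity : 0 < (P:ℝ)⁻¹ * Z⁻¹), ← Finset.mul_sum,
        ← Finset.mul_sum, ← Finset.sum_mul, ← Finset.mul_sum, ← hZdef]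
      have h4 : Z⁻¹ * ∑ l, ‖∑ y ∈ univ.filter (fun y => lv y = l), ω' y‖ ≤ 2 * (J * γ) := by
        rw [inv_mul_le_iff₀ hZpos]; linarith
      have h5 : (P:ℝ)⁻¹ * Z⁻¹ * ∑ y, ‖ω' y‖ ≤ (P:ℝ)⁻¹ * (3 * J) := by
        rw [mul_assoc]
        refine mul_le_mul_of_nonneg_left ?_ (by positivity)
        rw [inv_mul_le_iff₀ hZpos]; linarith
      have h6 : Z⁻¹ * Z⁻¹ * Z * ‖∑ y, ω' y‖ ≤ 2 * (J * γ) := by
        rw [mul_assoc Z⁻¹ Z⁻¹, inv_mul_cancel₀ hZpos.ne', mul_one, inv_mul_le_iff₀ hZpos]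
        linarith
      have h7 : J * γ = 4 * q / √(k:ℝ) := by
        rw [hJdef, hγdef, hPdef]; push_cast; field_simp
      have h8 : (P:ℝ)⁻¹ * (3 * J) = 12 / √(k:ℝ) := by
        rw [hJdef]; field_simp; norm_num
      have h9 : 2 * (4 * q / √(k:ℝ)) + (12 / √(k:ℝ) + 2 * (4 * q / √(k:ℝ))) ≤ 22 * q / √(k:ℝ) := by
        have : 22 * q / √(k:ℝ) - (2 * (4 * q / √(k:ℝ)) + (12 / √(k:ℝ) + 2 * (4 * q / √(k:ℝ))))
            = (6 * q - 12) / √(k:ℝ) := by field_simp; ring
        have h10 : 0 ≤ (6 * q - 12) / √(k:ℝ) := div_nonneg (by linarith) hs.le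
        linarith
      rw [h7] at h4 h6
      rw [h8] at h5
      linarith
    · have : 0 ≤ Real.log k := Real.log_nonneg (by exact_mod_cast hk)
      positivity
  · have h3 : Z⁻¹ • ∑ y, om lv K ε γ y x • mm (h y) - x
        = ∑ y, (Z⁻¹ * om lv K ε γ y x) • mm (κ y) := by
      have h4 : ∑ y, (Z⁻¹ * om lv K ε γ y x) • mm (κ y)
          = ∑ y, (Z⁻¹ * om lv K ε γ y x) • (mm (h y) - x) := by
        refine Finset.sum_congr rfl fun y _ => ?_
        by_cases hy : act y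
        · rw [hα y hy]
        · simp [(hin y hy).1]
      rw [h4]
      simp only [smul_sub, Finset.sum_sub_distrib, ← Finset.sum_smul, ← Finset.mul_sum,
        Finset.smul_sum, smul_smul]
      rw [← hZdef, inv_mul_cancel₀ hZpos.ne', one_smul]
    rw [h3]
    refine (norm_sum_le _ _).trans ?_
    calc ∑ y, ‖(Z⁻¹ * om lv K ε γ y x) • mm (κ y)‖
        ≤ ∑ y, (Z⁻¹ * om lv K ε γ y x) * (√(k:ℝ) * (A + 2 * k)) := by
          refine Finset.sum_le_sum fun y _ => ?_
          have h4 : 0 ≤ Z⁻¹ * om lv K ε γ y x := mul_nonneg (inv_pos.2 hZpos).le (hω0 y)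
          rw [norm_smul, Real.norm_eq_abs, abs_of_nonneg h4]
          refine mul_le_mul_of_nonneg_left ?_ h4
          refine (norm_mm_le _ fun g => (hκ y g).1).trans (mul_le_mul_of_nonneg_left ?_ hs.le)
          exact (av_mono fun g => (hκ y g).2).trans (av_const _).le
      _ = _ := by
          rw [← Finset.sum_mul, ← Finset.mul_sum, ← hZdef, inv_mul_cancel₀ hZpos.ne', one_mul]

end Pool.Agent.H763Z.LD
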