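import Mathlib
import Pool.Agent.H763Z.LD.Jac
import Pool.Agent.Helper31.GZ.Brouwer

open Finset MeasureTheory
open scoped RealInnerProductSpace

namespace Pool.Agent.H763Z.LD

lemma area {k : ℕ} (f : Eu k → Eu k) (M Δ θ : ℝ) (hM : 0 < M) (hΔ : Δ ≤ M) (hθ : 0 ≤ θ)
    (hf : ∀ x : Eu k, ‖x‖ ≤ M →
      ∃ D : Eu k →L[ℝ] Eu k, HasFDerivAt f D x ∧ |D.det| ≤ θ ∧ ‖f x - x‖ ≤ Δ) :
    (M - Δ) ^ k ≤ θ * M ^ k := by
  classical
  choose D hD using hf
  let D' : Eu k → Eu k →L[ℝ] Eu k := fun x => if hx : ‖x‖ ≤ M then D x hx else 0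
  have hD' : ∀ x ∈ Metric.closedBall (0 : Eu k) M, HasFDerivAt f (D' x) x ∧ |(D' x).det| ≤ θ := by
    intro x hx
    have hx' : ‖x‖ ≤ M := by simpa using hx
    simp only [D', dif_pos hx']
    exact ⟨(hD x hx').1, (hD x hx').2.1⟩
  let pr : Eu k → Eu k := fun x => (M / max M ‖x‖) • x
  have hmax : ∀ x : Eu k, 0 < max M ‖x‖ := fun x => lt_of_lt_of_le hM (le_max_left _ _)
  have hprc : Continuous pr :=
    (continuous_const.div (continuous_const.max continuous_norm) fun x => (hmax x).ne').smul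
      continuous_id
  have hprn : ∀ x, ‖pr x‖ ≤ M := by
    intro x
    simp only [pr]
    rw [norm_smul, Real.norm_eq_abs, abs_of_pos (div_pos hM (hmax x)), div_mul_eq_mul_div,
      div_le_iff₀ (hmax x)]
    exact mul_le_mul_of_nonneg_left (le_max_right _ _) hM.le
  have hprid : ∀ x, ‖x‖ ≤ M → pr x = x := by
    intro x hx
    simp only [pr]
    rw [max_eq_left hx, div_self hM.ne', one_smul]
  have hfc : Continuous (fun x => f (pr x)) :=
    continuous_iff_continuousAt.2 fun x =>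
      ContinuousAt.comp (hD (pr x) (hprn x)).1.continuousAt hprc.continuousAt
  have hsub : Metric.closedBall (0 : Eu k) (M - Δ) ⊆ f '' Metric.closedBall 0 M := by
    intro p hp
    have hp' : ‖p‖ ≤ M - Δ := by simpa using hp
    have hb : ∀ x, ‖p - (f (pr x) - pr x)‖ ≤ M := by
      intro x
      have := norm_sub_le p (f (pr x) - pr x)
      linarith [(hD (pr x) (hprn x)).2.2]
    obtain ⟨x, hx⟩ := Pool.Agent.Helper31.GZ.Brouwer.brouwer (fun x => p - (f (pr x) - pr x))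
      (continuous_const.sub (hfc.sub hprc)) M hb
    have hxM : ‖x‖ ≤ M := by rw [← hx]; exact hb x
    refine ⟨x, by simpa using hxM, ?_⟩
    rw [hprid x hxM] at hx
    have : f x = p - (p - (f x - x)) + x := by abel
    rw [this, hx]; abel
  have h1 := addHaar_image_le_lintegral_abs_det_fderiv (volume : Measure (Eu k))
    (s := Metric.closedBall 0 M) (f := f) (f' := D') measurableSet_closedBall
    (fun x hx => (hD' x hx).1.hasFDerivWithinAt)
  have h2 : ∫⁻ x in Metric.closedBall (0 : Eu k) M, ENNReal.ofReal |(D' x).det|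
      ≤ ENNReal.ofReal θ * volume (Metric.closedBall (0 : Eu k) M) := by
    rw [← setLIntegral_const]
    exact setLIntegral_mono' measurableSet_closedBall fun x hx =>
      ENNReal.ofReal_le_ofReal (hD' x hx).2
  have h3 := (measure_mono (μ := volume) hsub).trans (h1.trans h2)
  rw [Measure.addHaar_closedBall _ _ (sub_nonneg.2 hΔ), Measure.addHaar_closedBall _ _ hM.le,
    ← mul_assoc, ← ENNReal.ofReal_mul hθ] at h3
  have h4 : volume (Metric.ball (0 : Eu k) 1) ≠ 0 := (Metric.measure_ball_pos _ _ one_pos).ne'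
  have h5 : volume (Metric.ball (0 : Eu k) 1) ≠ ⊤ := measure_ball_lt_top.ne
  rw [ENNReal.mul_le_mul_iff_left h4 h5, ENNReal.ofReal_le_ofReal_iff (by positivity)] at h3
  simpa using h3

theorem core {k : ℕ} (hk : 1 ≤ k) {Y : Type} [Fintype Y] [DecidableEq Y]
    (pos : Y → Eu k) (h : Y → (Fin k → Bool) → ℝ) (q N : ℕ) (A M : ℝ)
    (hq : 2 ≤ q) (hN : 1 ≤ N) (hcard : Fintype.card Y ≤ 2 ^ N) (hA0 : 0 ≤ A)
    (hL : 4 * N * (A * (q * N * √(k:ℝ)) + 1) ≤ (3 / 2) ^ q)
    (h1 : ∀ u v, ‖pos u - pos v‖ ^ 2 ≤ 4 * k → (∀ g, h u g ≤ h v g) ∨ (∀ g, h v g ≤ h u g))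
    (h2 : ∀ u g, 0 ≤ h u g - ⟪sg g, pos u⟫ ∧ h u g - ⟪sg g, pos u⟫ ≤ A)
    (h0 : ∀ x : Eu k, ‖x‖ ≤ M → ∃ y, ‖x - pos y‖ ^ 2 ≤ k / 4)
    (hθ : 3 * ((((Real.log k + 2) * (A + 2 * k) + 2 * k) / k) * (22 * q / √(k:ℝ))) ≤ k / 2)
    (hM : 2 * (√(k:ℝ) * (A + 2 * k)) < M) : False := by
  have hkpos : (0:ℝ) < k := by exact_mod_cast hk
  have hs : 0 < √(k:ℝ) := Real.sqrt_pos.2 hkpos
  have hNpos : (0:ℝ) < N := by exact_mod_cast hN
  have hqpos : (0:ℝ) < q := by exact_mod_cast (by omega : 0 < q)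
  have hav : ∀ y, 0 ≤ av (h y) ∧ av (h y) ≤ A := by
    intro y
    have h3 : av (h y) = av (fun g => h y g - ⟪sg g, pos y⟫) := by rw [av_sub, av_inner, sub_zero]
    rw [h3]
    exact ⟨(av_const 0).ge.trans (av_mono fun g => (h2 y g).1),
      (av_mono fun g => (h2 y g).2).trans (av_const A).le⟩
  set r : ℝ := q * N * √(k:ℝ) with hr
  have hr0 : 0 < r := by positivity
  let lv : Y → Fin (⌊A * r⌋₊ + 1) := fun y =>
    ⟨⌊av (h y) * r⌋₊, Nat.lt_succ_of_le (Nat.floor_le_floor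
      (mul_le_mul_of_nonneg_right (hav y).2 hr0.le))⟩
  have hlv : ∀ u v, lv u = lv v → √(k:ℝ) * |av (h u) - av (h v)| ≤ ((q * N : ℕ) : ℝ)⁻¹ := by
    intro u v huv
    have h3 : ⌊av (h u) * r⌋₊ = ⌊av (h v) * r⌋₊ := congrArg Fin.val huv
    have h4 := Nat.floor_le (mul_nonneg (hav u).1 hr0.le)
    have h5 := Nat.floor_le (mul_nonneg (hav v).1 hr0.le)
    have h6 := Nat.lt_floor_add_one (av (h u) * r)
    have h7 := Nat.lt_floor_add_one (av (h v) * r)
    rw [h3] at h4 h6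
    have h8 : |av (h u) - av (h v)| * r ≤ 1 := by
      rw [← abs_of_pos hr0, ← abs_mul, abs_le]
      constructor <;> linarith
    push_cast
    rw [← mul_one ((q:ℝ) * N)⁻¹, le_inv_mul_iff₀ (by positivity)]
    rw [hr] at h8
    linarith
  have hL' : 4 * N * (Fintype.card (Fin (⌊A * r⌋₊ + 1)) : ℝ) ≤ (3 / 2) ^ q := by
    refine le_trans ?_ hL
    rw [Fintype.card_fin]
    push_cast
    have := Nat.floor_le (mul_nonneg hA0 hr0.le)
    gcongr
  have hlog : 0 ≤ Real.log k := Real.log_nonneg (by exact_mod_cast hk)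
  have hΔ0 : 0 < √(k:ℝ) * (A + 2 * k) := by positivity
  have hMpos : 0 < M := by linarith
  have h3 := area (CC pos h lv q N) M (√(k:ℝ) * (A + 2 * k)) ((1 / 2) ^ k) hMpos (by linarith)
    (by positivity) (fun x hx => by
      obtain ⟨D, hD1, hD2, hD3⟩ := jac hk pos h lv q N A hq hN hcard hL' h1 h2 hlv x (h0 x hx)
      refine ⟨D, hD1, ?_, hD3⟩
      rw [← mul_pow] at hD2
      set X := (((Real.log k + 2) * (A + 2 * k) + 2 * k) / k) * (22 * q / √(k:ℝ)) with hX
      have hX0 : 0 ≤ X := by positivity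
      have h4 : X ≤ k * (1 / 6) := by linarith
      have h5 := pow_le_pow_left₀ hX0 h4 k
      have h6 := Real.pow_div_factorial_le_exp (k:ℝ) hkpos.le k
      have h7 : Real.exp k ≤ 3 ^ k := by
        rw [← Real.exp_one_pow]
        exact pow_le_pow_left₀ (Real.exp_pos _).le
          (Real.exp_one_lt_d9.le.trans (by norm_num)) _
      have hf : (0:ℝ) < k.factorial := by positivity
      rw [div_le_iff₀ hf] at h6
      have h8 : (k:ℝ) ^ k ≤ 3 ^ k * k.factorial :=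
        h6.trans (mul_le_mul_of_nonneg_right h7 hf.le)
      have h9 : (k.factorial : ℝ) * |D.det| ≤ k.factorial * (1 / 2) ^ k := by
        calc (k.factorial : ℝ) * |D.det| ≤ (k * (1 / 6)) ^ k := hD2.trans h5
          _ = (k:ℝ) ^ k * (1 / 6) ^ k := mul_pow _ _ _
          _ ≤ (3 ^ k * k.factorial) * (1 / 6) ^ k :=
              mul_le_mul_of_nonneg_right h8 (by positivity)
          _ = k.factorial * (3 * (1 / 6)) ^ k := by rw [mul_pow]; ring
          _ = _ := by norm_num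
      exact le_of_mul_le_mul_left h9 hf)
  rw [← mul_pow] at h3
  have h4 : (1 / 2 * M) ^ k < (M - √(k:ℝ) * (A + 2 * k)) ^ k :=
    pow_lt_pow_left₀ (by linarith) (by positivity) (by omega)
  linarith

end Pool.Agent.H763Z.LD
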