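import Mathlib

namespace Pool.Agent.H763Z.LD

/-- `π` is a `d`-diameter ordering of `G`: it is injective, and any two vertices of a
`π`-increasing path are at distance at most `d` in `G`. -/
def IsDiamOrdering {V : Type} (G : SimpleGraph V) (π : V → ℝ) (d : ℕ) : Prop :=
  Function.Injective π ∧
    ∀ (u w : V) (p : G.Walk u w), p.IsPath → (p.support.map π).IsChain (· < ·) →
      ∀ a ∈ p.support, ∀ b ∈ p.support, G.edist a b ≤ (d : ℕ∞)

/-- `D n` is the least `d` such that every graph on `n` vertices has a `d`-diameter ordering. -/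
noncomputable def D (n : ℕ) : ℕ :=
  sInf {d : ℕ | ∀ G : SimpleGraph (Fin n), ∃ π : Fin n → ℝ, IsDiamOrdering G π d}

end Pool.Agent.H763Z.LD
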