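import Mathlib
import Pool.Agent.H763Z.LD.Core
import Pool.Agent.H763Z.LD.Defs

open Finset
open scoped RealInnerProductSpace

namespace Pool.Agent.H763Z.LD

/-- geometric graph -/
def geo {k : ℕ} {V : Type} (pos : V → Eu k) : SimpleGraph V where
  Adj u v := u ≠ v ∧ ‖pos u - pos v‖ ^ 2 ≤ 4 * k
  symm := ⟨fun u v h => ⟨h.1.symm, by rw [norm_sub_rev]; exact h.2⟩⟩
  loopless := ⟨fun u h => h.1 rfl⟩

lemma geo_walk {k : ℕ} {V : Type} (pos : V → Eu k) {u v : V} (p : (geo pos).Walk u v) :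
    ‖pos u - pos v‖ ≤ 2 * √(k:ℝ) * p.length := by
  induction p with
  | nil => simp
  | @cons a b c hab p ih =>
    have h1 : ‖pos a - pos b‖ ≤ 2 * √(k:ℝ) := by
      refine le_of_sq_le_sq ?_ (by positivity)
      rw [mul_pow, Real.sq_sqrt (by positivity)]
      have := hab.2
      linarith
    have h2 := norm_sub_le_norm_sub_add_norm_sub (pos a) (pos b) (pos c)
    rw [SimpleGraph.Walk.length_cons]
    push_cast
    linarith

lemma reach_walk {V : Type} (G : SimpleGraph V) (π : V → ℝ) {u z : V}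
    (h : Relation.ReflTransGen (fun a b => G.Adj a b ∧ π a < π b) u z) :
    ∃ p : G.Walk u z, (p.support.map π).IsChain (· < ·) := by
  induction h using Relation.ReflTransGen.head_induction_on with
  | refl => exact ⟨SimpleGraph.Walk.nil, by simp⟩
  | @head a b hab _ ih =>
    obtain ⟨p, hp⟩ := ih
    refine ⟨SimpleGraph.Walk.cons hab.1 p, ?_⟩
    rw [SimpleGraph.Walk.support_cons, ← p.cons_tail_support, List.map_cons, List.map_cons,
      List.isChain_cons_cons]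
    rw [← p.cons_tail_support, List.map_cons] at hp
    exact ⟨hab.2, hp⟩

lemma reach_dist {k : ℕ} {V : Type} (pos : V → Eu k) (π : V → ℝ) (d : ℕ)
    (hπ : IsDiamOrdering (geo pos) π d) {u z : V}
    (h : Relation.ReflTransGen (fun a b => (geo pos).Adj a b ∧ π a < π b) u z) :
    ‖pos u - pos z‖ ≤ 2 * √(k:ℝ) * d := by
  obtain ⟨p, hp⟩ := reach_walk _ π h
  have hpath : p.IsPath := by
    rw [SimpleGraph.Walk.isPath_def]
    have h1 := List.isChain_iff_pairwise.1 hp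
    exact List.Nodup.of_map π (h1.imp fun h => ne_of_lt h)
  have h2 := hπ.2 u z p hpath hp u p.start_mem_support z p.end_mem_support
  obtain ⟨p', hp'⟩ := SimpleGraph.exists_walk_of_edist_ne_top
    (ne_top_of_le_ne_top (ENat.natCast_ne_top d) h2)
  rw [← hp'] at h2
  have h3 : p'.length ≤ d := by exact_mod_cast h2
  refine (geo_walk pos p').trans (mul_le_mul_of_nonneg_left ?_ (by positivity))
  exact_mod_cast h3

lemma exists_h {k : ℕ} {V : Type} [Fintype V] (pos : V → Eu k) (π : V → ℝ) (d : ℕ)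
    (hπ : IsDiamOrdering (geo pos) π d) :
    ∃ h : V → (Fin k → Bool) → ℝ,
      (∀ u v, ‖pos u - pos v‖ ^ 2 ≤ 4 * k → (∀ g, h u g ≤ h v g) ∨ (∀ g, h v g ≤ h u g)) ∧
      (∀ u g, 0 ≤ h u g - ⟪sg g, pos u⟫ ∧ h u g - ⟪sg g, pos u⟫ ≤ 2 * k * d) := by
  classical
  let R := Relation.ReflTransGen (fun a b => (geo pos).Adj a b ∧ π a < π b)
  let S : V → Finset V := fun u => univ.filter (fun z => R u z)
  have hS : ∀ u, u ∈ S u := fun u =>
    Finset.mem_filter.2 ⟨Finset.mem_univ _, Relation.ReflTransGen.refl⟩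
  have hsub : ∀ u v, (geo pos).Adj u v → π u < π v → S v ⊆ S u := by
    intro u v h1 h2 z hz
    exact Finset.mem_filter.2 ⟨Finset.mem_univ _,
      Relation.ReflTransGen.head ⟨h1, h2⟩ (Finset.mem_filter.1 hz).2⟩
  refine ⟨fun u g => (S u).sup' ⟨u, hS u⟩ (fun z => ⟪sg g, pos z⟫), ?_, ?_⟩
  · intro u v huv
    by_cases h : u = v
    · subst h; exact Or.inl fun g => le_rfl
    · have hadj : (geo pos).Adj u v := ⟨h, huv⟩
      rcases lt_or_gt_of_ne (fun h' => h (hπ.1 h')) with h1 | h1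
      · exact Or.inr fun g => Finset.sup'_mono _ (hsub u v hadj h1) _
      · exact Or.inl fun g => Finset.sup'_mono _ (hsub v u hadj.symm h1) _
  · intro u g
    constructor
    · exact sub_nonneg.2 (Finset.le_sup' (fun z => ⟪sg g, pos z⟫) (hS u))
    · rw [sub_le_iff_le_add]
      refine Finset.sup'_le _ _ fun z hz => ?_
      have h1 := reach_dist pos π d hπ (Finset.mem_filter.1 hz).2
      have h2 := real_inner_le_norm (sg g) (pos z - pos u)
      rw [inner_sub_right, norm_sg, norm_sub_rev] at h2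
      have h3 := mul_le_mul_of_nonneg_left h1 (Real.sqrt_nonneg (k:ℝ))
      have h4 : √(k:ℝ) * (2 * √(k:ℝ) * d) = 2 * k * d := by
        have := Real.mul_self_sqrt (Nat.cast_nonneg k : (0:ℝ) ≤ k)
        linear_combination 2 * d * this
      linarith

/-- position of a grid point -/
noncomputable def gp {k : ℕ} (M : ℕ) (v : Fin k → Fin (2 * M + 1)) : Eu k :=
  WithLp.toLp 2 fun i => ((v i : ℕ) : ℝ) - M

lemma near_grid {k : ℕ} (M : ℕ) (x : Eu k) (hx : ‖x‖ ≤ M) :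
    ∃ v : Fin k → Fin (2 * M + 1), ‖x - gp M v‖ ^ 2 ≤ k / 4 := by
  have h1 : ∀ i, ∃ m : Fin (2 * M + 1), |x i - (((m : ℕ) : ℝ) - M)| ≤ 1 / 2 := by
    intro i
    have h2 : |x i| ≤ M := (PiLp.norm_apply_le x i).trans hx
    rw [abs_le] at h2
    have h3 := abs_sub_round (x i)
    have h4 : -(M:ℤ) ≤ round (x i) := by
      rw [abs_le] at h3
      have : ((-(M:ℤ) - 1 : ℤ) : ℝ) < round (x i) := by push_cast; linarith
      have := Int.cast_lt.1 this
      omega
    have h5 : round (x i) ≤ (M:ℤ) := by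
      rw [abs_le] at h3
      have : (round (x i) : ℝ) < (((M:ℤ) + 1 : ℤ) : ℝ) := by push_cast; linarith
      have := Int.cast_lt.1 this
      omega
    refine ⟨⟨(round (x i) + M).toNat, by omega⟩, ?_⟩
    have h6 : (((round (x i) + M).toNat : ℕ) : ℝ) = round (x i) + M := by
      have : (((round (x i) + M).toNat : ℕ) : ℤ) = round (x i) + M := by omega
      exact_mod_cast this
    simp only [h6]
    simpa using h3
  choose v hv using h1
  refine ⟨v, ?_⟩
  rw [EuclideanSpace.norm_sq_eq]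
  calc ∑ i, ‖(x - gp M v) i‖ ^ 2 ≤ ∑ _i : Fin k, (1 / 4 : ℝ) := by
        refine Finset.sum_le_sum fun i _ => ?_
        have h2 : ‖(x - gp M v) i‖ ≤ 1 / 2 := hv i
        have := pow_le_pow_left₀ (norm_nonneg _) h2 2
        linarith
    _ = k / 4 := by simp; ring

theorem lower_k (k n : ℕ) (hk : 46 ≤ k) (hn1 : k ^ (4 * k) ≤ n) (hn2 : n ≤ 2 ^ (4 * (k + 1) ^ 2)) :
    ∃ G : SimpleGraph (Fin n), ∀ (π : Fin n → ℝ) (d : ℕ), IsDiamOrdering G π d →
      (k:ℝ) * √(k:ℝ) < 30000 * (d + 1) * Real.log k ^ 2 := by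
  classical
  have hcard : Fintype.card (Fin k → Fin (2 * k ^ 3 + 1)) ≤ Fintype.card (Fin n) := by
    simp only [Fintype.card_fun, Fintype.card_fin]
    refine le_trans ?_ hn1
    rw [pow_mul]
    refine Nat.pow_le_pow_left ?_ _
    have h1 : 1 ≤ k ^ 3 := Nat.one_le_pow _ _ (by omega)
    calc 2 * k ^ 3 + 1 ≤ 46 * k ^ 3 := by omega
      _ ≤ k * k ^ 3 := Nat.mul_le_mul_right _ hk
      _ = k ^ 4 := by ring
  obtain ⟨e⟩ := Function.Embedding.nonempty_of_card_le hcard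
  let ρ : Fin n → (Fin k → Fin (2 * k ^ 3 + 1)) := Function.invFun e
  have hρ : ∀ v, ρ (e v) = v := Function.leftInverse_invFun e.injective
  let pos : Fin n → Eu k := fun u => gp (k ^ 3) (ρ u)
  refine ⟨geo pos, fun π d hπ => ?_⟩
  by_contra hcon
  push Not at hcon
  obtain ⟨h, h1, h2⟩ := exists_h pos π d hπ
  have hk' : (46:ℝ) ≤ k := by exact_mod_cast hk
  have hkpos : (0:ℝ) < k := by linarith
  set L := Real.log k with hL
  set s := √(k:ℝ) with hs
  have hs0 : 0 < s := Real.sqrt_pos.2 hkpos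
  have hss : s * s = k := Real.mul_self_sqrt hkpos.le
  have hs1 : 1 ≤ s := by nlinarith
  have hsk : s ≤ k := by nlinarith
  have hL2 : 2 ≤ L := by
    rw [hL, Real.le_log_iff_exp_le hkpos]
    have h3 : Real.exp 2 = Real.exp 1 ^ 2 := by rw [← Real.exp_nat_mul]; norm_num
    have h4 := Real.exp_one_lt_d9
    have h5 := Real.exp_pos 1
    rw [h3]
    nlinarith
  have hd0 : (0:ℝ) ≤ d := Nat.cast_nonneg d
  set q : ℕ := ⌈30 * L⌉₊ with hq
  have hq1 : 30 * L ≤ q := Nat.le_ceil _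
  have hq2 : (q:ℝ) ≤ 31 * L := by
    have := Nat.ceil_lt_add_one (show 0 ≤ 30 * L by linarith)
    linarith
  have hq0 : (0:ℝ) ≤ q := Nat.cast_nonneg q
  have hdL : 0 ≤ (d + 1) * L := by positivity
  refine core (by omega : 1 ≤ k) pos h q (4 * (k + 1) ^ 2) (2 * k * d) ((k ^ 3 : ℕ) : ℝ) ?_ ?_ ?_
    (by positivity) ?_ h1 h2 ?_ ?_ ?_
  · have : (2:ℝ) ≤ q := by linarith
    exact_mod_cast this
  · have : 1 ≤ (k + 1) ^ 2 := Nat.one_le_pow _ _ (by omega)
    omega
  · simpa using hn2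
  · have h3 : (k:ℝ) ^ 10 ≤ (3 / 2) ^ q := by
      have h4 : Real.exp (1 / 3) ≤ 3 / 2 := by
        have h5 : Real.exp (1 / 3) ^ 3 = Real.exp 1 := by rw [← Real.exp_nat_mul]; norm_num
        have h6 := Real.exp_one_lt_d9
        refine le_of_lt (lt_of_pow_lt_pow_left₀ 3 (by norm_num) ?_)
        rw [h5]; linarith
      calc (k:ℝ) ^ 10 = Real.exp (10 * L) := by
            rw [hL, show (10:ℝ) = ((10:ℕ):ℝ) by norm_num, Real.exp_nat_mul, Real.exp_log hkpos]
        _ ≤ Real.exp (q * (1 / 3)) := Real.exp_le_exp.2 (by linarith)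
        _ = Real.exp (1 / 3) ^ q := Real.exp_nat_mul _ _
        _ ≤ _ := pow_le_pow_left₀ (Real.exp_pos _).le h4 _
    refine le_trans ?_ h3
    push_cast
    have hN : 4 * ((k:ℝ) + 1) ^ 2 ≤ 16 * k ^ 2 := by nlinarith
    have hdq : (d:ℝ) * q ≤ k ^ 2 := by
      have h5 : (d:ℝ) * q ≤ (d + 1) * (31 * L) := mul_le_mul (by linarith) hq2 hq0 (by linarith)
      nlinarith
    have h6 : 2 * (k:ℝ) * d * (q * (4 * (k + 1) ^ 2) * s) ≤ 32 * k ^ 6 := by
      calc 2 * (k:ℝ) * d * (q * (4 * ((k:ℝ) + 1) ^ 2) * s)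
          = 2 * (k:ℝ) * (((d:ℝ) * q) * ((4 * ((k:ℝ) + 1) ^ 2) * s)) := by ring
        _ ≤ 2 * (k:ℝ) * ((k:ℝ) ^ 2 * ((16 * (k:ℝ) ^ 2) * k)) := by gcongr
        _ = 32 * (k:ℝ) ^ 6 := by ring
    have h7 : (1:ℝ) ≤ k ^ 6 := one_le_pow₀ (by linarith)
    calc 4 * (4 * ((k:ℝ) + 1) ^ 2) * (2 * (k:ℝ) * d * (q * (4 * ((k:ℝ) + 1) ^ 2) * s) + 1)
        ≤ 4 * (16 * (k:ℝ) ^ 2) * (33 * (k:ℝ) ^ 6) :=
          mul_le_mul (by linarith) (by linarith) (by positivity) (by positivity)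
      _ = 2112 * (k:ℝ) ^ 8 := by ring
      _ ≤ (k:ℝ) ^ 2 * (k:ℝ) ^ 8 := mul_le_mul_of_nonneg_right (by nlinarith) (by positivity)
      _ = (k:ℝ) ^ 10 := by ring
  · intro x hx
    obtain ⟨v, hv⟩ := near_grid (k ^ 3) x hx
    exact ⟨e v, by simpa only [pos, hρ] using hv⟩
  · rw [← hL, ← hs]
    have h3 : ((L + 2) * (2 * k * d + 2 * k) + 2 * k) / k = (L + 2) * (2 * (d + 1)) + 2 := by
      field_simp
    have h4 : (L + 2) * (2 * (d + 1)) + 2 ≤ 5 * ((d + 1) * L) := by nlinarith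
    have h5 : 22 * q / s ≤ 22 * (31 * L) / s := by gcongr
    rw [h3]
    have h6 := mul_le_mul h4 h5 (by positivity) (by positivity)
    have h7 : 5 * ((d + 1) * L) * (22 * (31 * L) / s) ≤ k / 6 := by
      rw [← mul_div_assoc, div_le_iff₀ hs0]
      nlinarith
    linarith
  · rw [← hs]
    push_cast
    have h3 : (k:ℝ) ^ 3 = (k * s) * (k * s) := by
      linear_combination (-(k:ℝ) ^ 2) * hss
    have h4 : 4 * ((d:ℝ) + 1) < k * s := by nlinarith
    have h5 := mul_lt_mul_of_pos_left h4 (mul_pos hkpos hs0)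
    rw [h3]
    linarith

end Pool.Agent.H763Z.LD
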