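import Mathlib
import Pool.Agent.H763Z.LD.Graph

open Finset

namespace Pool.Agent.H763Z.LD

lemma D_spec (n : ℕ) (G : SimpleGraph (Fin n)) : ∃ π : Fin n → ℝ, IsDiamOrdering G π (D n) := by
  classical
  have hne : {d : ℕ | ∀ G : SimpleGraph (Fin n), ∃ π : Fin n → ℝ, IsDiamOrdering G π d}.Nonempty := by
    refine ⟨2 * n, fun G => ⟨fun i => ((i : ℕ) : ℝ), fun i j hij => ?_, ?_⟩⟩
    · exact Fin.ext (Nat.cast_injective (R := ℝ) hij)
    · intro u w p hp _ a ha b hb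
      have h1 := hp.length_lt
      rw [Fintype.card_fin] at h1
      have h2 := SimpleGraph.edist_le ((p.takeUntil a ha).reverse.append (p.takeUntil b hb))
      refine h2.trans ?_
      have h3 := p.length_takeUntil_le_length ha
      have h4 := p.length_takeUntil_le_length hb
      rw [SimpleGraph.Walk.length_append, SimpleGraph.Walk.length_reverse]
      exact_mod_cast (by omega)
  exact Nat.sInf_mem hne G

theorem lower_n : ∃ N : ℕ, ∀ n ≥ N, 2 ≤ Real.log (Real.log n) ∧ ∃ G : SimpleGraph (Fin n),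
    ∀ (π : Fin n → ℝ) (d : ℕ), IsDiamOrdering G π d →
      (1 / 4000000 : ℝ) * Real.log n ^ (3 / 2 : ℝ) / Real.log (Real.log n) ^ (7 / 2 : ℝ) ≤ d := by
  obtain ⟨k₀, hk₀⟩ : ∃ k₀ : ℕ, 10 ^ 11 ≤ k₀ := ⟨_, le_rfl⟩
  refine ⟨k₀ ^ (4 * k₀), fun n hn => ?_⟩
  have hex : ∃ k, n < (k + 1) ^ (4 * (k + 1)) :=
    ⟨n, lt_of_lt_of_le (Nat.lt_succ_self n) (Nat.le_self_pow (by omega) _)⟩
  classical
  set k := Nat.find hex with hkdef
  have hk1 : n < (k + 1) ^ (4 * (k + 1)) := Nat.find_spec hex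
  have hk2 : k₀ ≤ k := by
    by_contra hc
    have h1 : k + 1 ≤ k₀ := by omega
    have h2 : (k + 1) ^ (4 * (k + 1)) ≤ k₀ ^ (4 * k₀) :=
      (Nat.pow_le_pow_left h1 _).trans (Nat.pow_le_pow_right (by omega) (by omega))
    omega
  have hk3 : k ^ (4 * k) ≤ n := by
    have h1 := Nat.find_min hex (m := k - 1) (by omega)
    rw [Nat.sub_add_cancel (by omega : 1 ≤ k)] at h1
    omega
  have hk4 : n ≤ 2 ^ (4 * (k + 1) ^ 2) := by
    refine hk1.le.trans ?_
    calc (k + 1) ^ (4 * (k + 1)) ≤ (2 ^ (k + 1)) ^ (4 * (k + 1)) :=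
          Nat.pow_le_pow_left Nat.lt_two_pow_self.le _
      _ = 2 ^ (4 * (k + 1) ^ 2) := by rw [← pow_mul]; congr 1; ring
  obtain ⟨G, hG⟩ := lower_k k n (by omega) hk3 hk4
  have hk' : (10:ℝ) ^ 11 ≤ k := by exact_mod_cast hk₀.trans hk2
  have hkpos : (0:ℝ) < k := by linarith
  set L := Real.log k with hL
  set s := √(k:ℝ) with hs
  have hs0 : 0 < s := Real.sqrt_pos.2 hkpos
  have hss : s * s = k := Real.mul_self_sqrt hkpos.le
  have hL2 : 2 ≤ L := by
    rw [hL, Real.le_log_iff_exp_le hkpos]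
    have h3 : Real.exp 2 = Real.exp 1 ^ 2 := by rw [← Real.exp_nat_mul]; norm_num
    have h4 := Real.exp_one_lt_d9
    have h5 := Real.exp_pos 1
    rw [h3]
    nlinarith
  have hLs : L ≤ 2 * s := by
    rw [hL, ← hss, Real.log_mul hs0.ne' hs0.ne']
    have := Real.log_le_sub_one_of_pos hs0
    linarith
  have hnpos : (0:ℝ) < n := by
    have : 0 < k ^ (4 * k) := pow_pos (by omega) _
    exact_mod_cast (by omega : 0 < n)
  have hlog1 : 4 * k * L ≤ Real.log n := by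
    have h1 : ((k:ℝ)) ^ (4 * k) ≤ n := by exact_mod_cast hk3
    have h2 := Real.log_le_log (by positivity) h1
    rw [Real.log_pow] at h2
    push_cast at h2
    exact h2
  have hlog2 : Real.log n ≤ 16 * k * L := by
    have h1 : (n:ℝ) ≤ ((k:ℝ) + 1) ^ (4 * (k + 1)) := by exact_mod_cast hk1.le
    have h2 := Real.log_le_log hnpos h1
    rw [Real.log_pow] at h2
    push_cast at h2
    have h3 : Real.log ((k:ℝ) + 1) ≤ 2 * L := by
      have h4 : (k:ℝ) + 1 ≤ k * k := by nlinarith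
      have h5 := Real.log_le_log (by positivity) h4
      rw [Real.log_mul hkpos.ne' hkpos.ne'] at h5
      linarith
    calc Real.log n ≤ 4 * ((k:ℝ) + 1) * Real.log ((k:ℝ) + 1) := h2
      _ ≤ (8 * k) * (2 * L) :=
          mul_le_mul (by linarith) h3 (Real.log_nonneg (by linarith)) (by positivity)
      _ = _ := by ring
  have hlog3 : L ≤ Real.log (Real.log n) := Real.log_le_log hkpos (by nlinarith)
  refine ⟨hL2.trans hlog3, G, fun π d hπ => ?_⟩
  have h1 := hG π d hπ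
  have hd1 : (1:ℝ) ≤ d := by
    rcases Nat.eq_zero_or_pos d with h | h
    · exfalso
      subst h
      have h2 : L ^ 2 ≤ 4 * k := by nlinarith
      have h3 : 120000 ≤ s := by nlinarith
      push_cast at h1
      nlinarith
    · exact_mod_cast h
  have hL0 : 0 < L := by linarith
  have h2 : Real.log n ^ (3 / 2 : ℝ) ≤ 64 * (k * s) * L ^ (3 / 2 : ℝ) := by
    refine (Real.rpow_le_rpow (by nlinarith) hlog2 (by norm_num)).trans (le_of_eq ?_)
    rw [Real.mul_rpow (by positivity) hL0.le]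
    congr 1
    have h3 : 16 * (k:ℝ) = (4 * s) ^ (2:ℝ) := by
      rw [Real.rpow_two]; linear_combination (-16) * hss
    rw [h3, ← Real.rpow_mul (by positivity), show (2:ℝ) * (3 / 2) = ((3:ℕ):ℝ) by norm_num,
      Real.rpow_natCast]
    linear_combination 64 * s * hss
  have h3 : L ^ 2 * L ^ (3 / 2 : ℝ) ≤ Real.log (Real.log n) ^ (7 / 2 : ℝ) := by
    refine le_trans (le_of_eq ?_) (Real.rpow_le_rpow hL0.le hlog3 (by norm_num))
    rw [← Real.rpow_two, ← Real.rpow_add hL0]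
    norm_num
  have h4 : 0 < L ^ (3 / 2 : ℝ) := Real.rpow_pos_of_pos hL0 _
  rw [div_le_iff₀ (lt_of_lt_of_le (by positivity) h3)]
  have h5 : k * s ≤ 60000 * d * L ^ 2 := by nlinarith [sq_nonneg L]
  calc (1 / 4000000 : ℝ) * Real.log n ^ (3 / 2 : ℝ)
      ≤ (1 / 4000000 : ℝ) * (64 * (60000 * d * L ^ 2) * L ^ (3 / 2 : ℝ)) := by
        refine mul_le_mul_of_nonneg_left (h2.trans ?_) (by norm_num)
        gcongr
    _ = (24 / 25) * (d * (L ^ 2 * L ^ (3 / 2 : ℝ))) := by ring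
    _ ≤ d * (L ^ 2 * L ^ (3 / 2 : ℝ)) := by
        have : 0 ≤ d * (L ^ 2 * L ^ (3 / 2 : ℝ)) := by positivity
        linarith
    _ ≤ _ := mul_le_mul_of_nonneg_left h3 (by positivity)

lemma growth (c C : ℝ) (hc : 0 < c) : ∃ N : ℕ, ∀ n ≥ N, 2 ≤ Real.log (Real.log n) →
    C * Real.log n < c * Real.log n ^ (3 / 2 : ℝ) / Real.log (Real.log n) ^ (7 / 2 : ℝ) := by
  set ε : ℝ := c / (|C| + 1) with hε
  have hε0 : 0 < ε := by positivity
  have h1 := (Real.isLittleO_pow_log_id_atTop (n := 7)).bound (show 0 < ε ^ 2 by positivity)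
  have h2 : Filter.Tendsto (fun n : ℕ => Real.log n) Filter.atTop Filter.atTop :=
    Real.tendsto_log_atTop.comp tendsto_natCast_atTop_atTop
  have h3 := (h2.eventually h1).and (h2.eventually (Filter.eventually_gt_atTop 0))
  obtain ⟨N, hN⟩ := Filter.eventually_atTop.1 h3
  refine ⟨N, fun n hn h4 => ?_⟩
  obtain ⟨h5, h6⟩ := hN n hn
  set y := Real.log n
  set z := Real.log y
  have hz : 0 < z := by linarith
  simp only [id, Real.norm_eq_abs] at h5
  rw [abs_of_pos (by positivity), abs_of_pos h6] at h5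
  have h7 : z ^ (7 / 2 : ℝ) ≤ ε * y ^ (1 / 2 : ℝ) := by
    refine le_of_sq_le_sq ?_ (by positivity)
    rw [mul_pow, ← Real.rpow_two (z ^ (7 / 2 : ℝ)), ← Real.rpow_two (y ^ (1 / 2 : ℝ)),
      ← Real.rpow_mul hz.le, ← Real.rpow_mul h6.le,
      show (7 / 2 : ℝ) * 2 = ((7:ℕ):ℝ) by norm_num, Real.rpow_natCast,
      show (1 / 2 : ℝ) * 2 = 1 by norm_num, Real.rpow_one]
    exact h5
  have h8 : y ^ (3 / 2 : ℝ) = y * y ^ (1 / 2 : ℝ) := by
    rw [show (3 / 2 : ℝ) = 1 + 1 / 2 by norm_num, Real.rpow_add h6, Real.rpow_one]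
  have h9 : 0 < z ^ (7 / 2 : ℝ) := Real.rpow_pos_of_pos hz _
  rw [lt_div_iff₀ h9, h8]
  have h10 : c = (|C| + 1) * ε := by rw [hε]; field_simp
  calc C * y * z ^ (7 / 2 : ℝ) < (|C| + 1) * y * z ^ (7 / 2 : ℝ) := by
        have := le_abs_self C
        gcongr
        linarith
    _ ≤ (|C| + 1) * y * (ε * y ^ (1 / 2 : ℝ)) := by gcongr
    _ = _ := by rw [h10]; ring

theorem main :
    (∃ c : ℝ, 0 < c ∧ ∃ N : ℕ, ∀ n ≥ N,
      c * Real.log n ^ (3 / 2 : ℝ) / Real.log (Real.log n) ^ (7 / 2 : ℝ) ≤ (D n : ℝ)) ∧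
    (∀ C : ℝ, ∃ N : ℕ, ∀ n ≥ N, ∃ G : SimpleGraph (Fin n), ∀ (π : Fin n → ℝ) (d : ℕ),
      IsDiamOrdering G π d → C * Real.log n < d) := by
  obtain ⟨N, hN⟩ := lower_n
  refine ⟨⟨1 / 4000000, by norm_num, N, fun n hn => ?_⟩, fun C => ?_⟩
  · obtain ⟨-, G, hG⟩ := hN n hn
    obtain ⟨π, hπ⟩ := D_spec n G
    exact hG π _ hπ
  · obtain ⟨N', hN'⟩ := growth (1 / 4000000) C (by norm_num)
    refine ⟨max N N', fun n hn => ?_⟩
    obtain ⟨h1, G, hG⟩ := hN n (le_of_max_le_left hn)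
    exact ⟨G, fun π d hπ => (hN' n (le_of_max_le_right hn) h1).trans_le (hG π d hπ)⟩

end Pool.Agent.H763Z.LD
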